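import Mathlib

/-! Numerical inequalities for the layout. -/

namespace Pool.Agent.P.MP_c64be1_ag

lemma two_mul_choose_two_add (n : ℕ) : 2 * n.choose 2 + n = n * n := by
  induction n with
  | zero => simp
  | succ n ih =>
    rw [Nat.choose_succ_succ' n 1, Nat.choose_one_right]
    nlinarith

lemma two_mul_sq_le_two_pow {k : ℕ} (hk : 7 ≤ k) : 2 * (k * k) ≤ 2 ^ k := by
  induction k, hk using Nat.le_induction with
  | base => norm_num
  | succ n hn ih =>
    rw [pow_succ]
    nlinarith

lemma large_bound {k c : ℕ} (hk : 7 ≤ k) (hc : 2 ≤ c) : c * c * (k * k) ≤ 2 * c ^ k := by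
  obtain ⟨j, rfl⟩ : ∃ j, k = j + 2 := ⟨k - 2, by omega⟩
  have h1 := two_mul_sq_le_two_pow hk
  have h2 : 2 ^ j ≤ c ^ j := Nat.pow_le_pow_left hc j
  have h3 : (j + 2) * (j + 2) ≤ 2 * c ^ j := by
    rw [pow_add] at h1
    omega
  calc c * c * ((j + 2) * (j + 2)) ≤ c * c * (2 * c ^ j) := by gcongr
    _ = 2 * c ^ (j + 2) := by ring

lemma three_le_of_lt {c k : ℕ} (hc : 2 ≤ c) (h : 2 ^ k < c ^ k) : 3 ≤ c := by
  by_contra h1
  have : c = 2 := by omega
  subst this
  exact lt_irrefl _ h

lemma ineq13 {k c a : ℕ} (hk : 1 ≤ k) (hc : 2 ≤ c) (ha : 2 * a + k = k * k)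
    (hG : 5 * k + 5 ≤ c ^ k) (hex : ¬ (k = 5 ∧ c = 2)) :
    a * c + (4 * k + 4) ≤ c ^ k ∧ (a - 1) * c * c < c ^ k := by
  by_cases h7 : 7 ≤ k
  · have h := large_bound h7 hc
    have ha1 : 1 ≤ a := by nlinarith
    obtain ⟨b, rfl⟩ : ∃ b, a = b + 1 := ⟨a - 1, by omega⟩
    rw [Nat.add_sub_cancel]
    constructor
    · have h2 : 2 * c * (k * k) ≤ c * c * (k * k) := by gcongr
      have h3 : 2 * (7 * k) ≤ c * (k * k) := by gcongr
      nlinarith
    · have : 0 < c * c := by positivity
      nlinarith
  · have hk6 : k ≤ 6 := by omega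
    interval_cases k
    · have : a = 0 := by omega
      subst this
      simp only [pow_one] at hG ⊢
      omega
    · have : a = 1 := by omega
      subst this
      have h4 : 4 ≤ c := by
        by_contra h
        have : c ≤ 3 := by omega
        interval_cases c <;> omega
      constructor
      · nlinarith
      · simp only [Nat.sub_self, zero_mul]
        omega
    · have : a = 3 := by omega
      subst this
      have h3 : 3 ≤ c := three_le_of_lt (k := 3) hc (by omega)
      have h5 : 9 ≤ c * c := by nlinarith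
      constructor <;> nlinarith
    · have : a = 6 := by omega
      subst this
      have h3 : 3 ≤ c := three_le_of_lt (k := 4) hc (by omega)
      have h5 : 9 ≤ c * c := by nlinarith
      have h6 : 9 * (c * c) ≤ c ^ 4 := by nlinarith
      constructor <;> nlinarith
    · have : a = 10 := by omega
      subst this
      have h3 : 3 ≤ c := by omega
      have h5 : 27 ≤ c ^ 3 := Nat.pow_le_pow_left h3 3
      have h6 : c * c * 27 ≤ c ^ 5 := by
        calc c * c * 27 ≤ c * c * c ^ 3 := by gcongr
          _ = c ^ 5 := by ring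
      constructor <;> nlinarith
    · have : a = 15 := by omega
      subst this
      have h5 : 16 ≤ c ^ 4 := Nat.pow_le_pow_left hc 4
      have h6 : c * c * 16 ≤ c ^ 6 := by
        calc c * c * 16 ≤ c * c * c ^ 4 := by gcongr
          _ = c ^ 6 := by ring
      constructor <;> nlinarith

lemma ineq2 {k c a : ℕ} (hk : 1 ≤ k) (hc : 2 ≤ c) (ha : 2 * a + k = k * k)
    (hG : (k + 2) * (k + 2) < c ^ k) :
    (k + 2) * (a * c + 3 * k + 3) ≤ (k + 1) * c ^ k := by
  by_cases h7 : 7 ≤ k
  · have h := large_bound h7 hc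
    have h2 : 2 * c * (k * k) ≤ c * c * (k * k) := by gcongr
    have h3 : c * (k * k) ≤ c ^ k := by nlinarith
    have h4 : 2 * (a * c) ≤ c * (k * k) := by nlinarith
    have h5 : 2 * (7 * k) ≤ c * (k * k) := by gcongr
    have h6 : 4 * (a * c + 3 * k + 3) ≤ 3 * c ^ k := by omega
    nlinarith
  · have hk6 : k ≤ 6 := by omega
    interval_cases k
    · have : a = 0 := by omega
      subst this
      simp only [pow_one] at hG ⊢
      omega
    · have : a = 1 := by omega
      subst this
      have h4 : 5 ≤ c := by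
        by_contra h
        have : c ≤ 4 := by omega
        interval_cases c <;> omega
      nlinarith
    · have : a = 3 := by omega
      subst this
      have h3 : 3 ≤ c := three_le_of_lt (k := 3) hc (by omega)
      have h5 : 9 ≤ c * c := by nlinarith
      nlinarith
    · have : a = 6 := by omega
      subst this
      have h3 : 3 ≤ c := three_le_of_lt (k := 4) hc (by omega)
      have h5 : 9 ≤ c * c := by nlinarith
      have h6 : 9 * (c * c) ≤ c ^ 4 := by nlinarith
      nlinarith
    · have : a = 10 := by omega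
      subst this
      have h3 : 3 ≤ c := three_le_of_lt (k := 5) hc (by omega)
      have h5 : 27 ≤ c ^ 3 := Nat.pow_le_pow_left h3 3
      have h6 : c * c * 27 ≤ c ^ 5 := by
        calc c * c * 27 ≤ c * c * c ^ 3 := by gcongr
          _ = c ^ 5 := by ring
      nlinarith
    · have : a = 15 := by omega
      subst this
      have h3 : 3 ≤ c := three_le_of_lt (k := 6) hc (by omega)
      have h5 : 81 ≤ c ^ 4 := Nat.pow_le_pow_left h3 4
      have h6 : c * c * 81 ≤ c ^ 6 := by
        calc c * c * 81 ≤ c * c * c ^ 4 := by gcongr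
          _ = c ^ 6 := by ring
      nlinarith

lemma four_mul_le_two_pow {k : ℕ} (hk : 4 ≤ k) : 4 * k ≤ 2 ^ k := by
  induction k, hk using Nat.le_induction with
  | base => norm_num
  | succ n hn ih =>
    rw [pow_succ]
    omega

lemma ineq_low {K y : ℕ} (hK : 2 ≤ K) :
    K * (2 * (y + 2 * K - 2)) < 2 ^ K * (y + K) + 1 := by
  by_cases h4 : 4 ≤ K
  · have h := four_mul_le_two_pow h4
    have h1 : y + 2 * K - 2 ≤ 2 * (y + K) := by omega
    calc K * (2 * (y + 2 * K - 2)) ≤ K * (2 * (2 * (y + K))) := by gcongr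
      _ = 4 * K * (y + K) := by ring
      _ ≤ 2 ^ K * (y + K) := by gcongr
      _ < _ := by omega
  · have : K ≤ 3 := by omega
    interval_cases K <;> omega

end Pool.Agent.P.MP_c64be1_ag
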