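import Pool.Agent.P.MP_c64be1_ag.Dense

/-! Invariance, monotonicity, blocks of variables and linear substitutions. -/

namespace Pool.Agent.P.MP_c64be1_ag

open MvPolynomial

theorem secantFills_rename {σ σ' : Type} (e : σ ≃ σ') {k r s : ℕ} (h : SecantFills σ k r s) :
    SecantFills σ' k r s := by
  intro P hP F hF
  have hco : ∀ (G : MvPolynomial σ ℂ) (m : σ' →₀ ℕ),
      coeff m (rename e G) = coeff (Finsupp.mapDomain e.symm m) G := by
    intro G m
    rw [← coeff_rename_mapDomain e e.injective G, ← Finsupp.mapDomain_comp]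
    simp
  have hev : ∀ G : MvPolynomial σ ℂ,
      eval (fun m => coeff m G) (rename (fun m => Finsupp.mapDomain e.symm m) P)
        = eval (fun m => coeff m (rename e G)) P := by
    intro G
    rw [eval_rename]
    congr 2
    funext m
    simp [hco]
  have h1 := h (rename (fun m => Finsupp.mapDomain e.symm m) P) (fun G hG => by
    rw [hev]
    apply hP
    obtain ⟨H, hH, rfl⟩ := hG
    refine ⟨fun i => rename e (H i), fun i => ?_, by simp⟩
    obtain ⟨U, hU, hr, hm⟩ := hH i
    refine ⟨U.map (rename e : MvPolynomial σ ℂ →ₐ[ℂ] MvPolynomial σ' ℂ).toLinearMap, ?_, ?_, ?_⟩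
    · rintro _ ⟨p, hp, rfl⟩
      exact IsHomogeneous.rename_isHomogeneous (hU hp)
    · rw [← hr]
      exact (Submodule.equivMapOfInjective _ (rename_injective _ e.injective) U).finrank_eq.symm
    · rw [← Submodule.map_pow]
      exact ⟨_, hm, rfl⟩) (rename e.symm F) hF.rename_isHomogeneous
  rw [hev] at h1
  simpa using h1

theorem secantFills_succ {σ : Type} [Fintype σ] {k r s : ℕ} (hr : r ≤ Fintype.card σ)
    (h : SecantFills σ k r s) : SecantFills σ k r (s + 1) := by
  intro P hP
  refine h P fun F hF => hP F ?_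
  obtain ⟨G, hG, rfl⟩ := hF
  refine ⟨Fin.cons 0 G, fun i => ?_, by simp [Fin.sum_univ_succ]⟩
  refine Fin.cases ?_ (fun j => ?_) i
  · exact mem_subCone_of_le hr (U := ⊥) bot_le (by simp) (Submodule.zero_mem _)
  · exact hG j

theorem secantFills_mono {σ : Type} [Fintype σ] {k r s t : ℕ} (hr : r ≤ Fintype.card σ)
    (hst : s ≤ t) (h : SecantFills σ k r s) : SecantFills σ k r t := by
  induction hst with
  | refl => exact h
  | step _ ih => exact secantFills_succ hr ih

theorem secantFills_mono_r {σ : Type} [Fintype σ] {k r r' s : ℕ} (hr : r' ≤ Fintype.card σ)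
    (hrr : r ≤ r') (h : SecantFills σ k r s) : SecantFills σ k r' s := by
  intro P hP
  refine h P fun F hF => hP F ?_
  obtain ⟨G, hG, rfl⟩ := hF
  refine ⟨G, fun i => ?_, rfl⟩
  obtain ⟨U, hU, hUr, hm⟩ := hG i
  exact mem_subCone_of_le hr hU (by omega) hm

/-- The span of the variables in `S`. -/
noncomputable def spanX {σ : Type} (S : Set σ) : Submodule ℂ (MvPolynomial σ ℂ) :=
  Submodule.span ℂ (X '' S)

lemma X_mem_spanX {σ : Type} {S : Set σ} {v : σ} (hv : v ∈ S) : X v ∈ spanX S :=
  Submodule.subset_span ⟨v, hv, rfl⟩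

lemma spanX_le {σ : Type} (S : Set σ) : spanX S ≤ homogeneousSubmodule σ ℂ 1 := by
  refine Submodule.span_le.mpr ?_
  rintro _ ⟨v, -, rfl⟩
  exact isHomogeneous_X ℂ v

lemma finrank_spanX_le {σ : Type} (S : Set σ) [Fintype S] :
    Module.finrank ℂ (spanX S) ≤ Fintype.card S := by
  have : (X '' S : Set (MvPolynomial σ ℂ)) = Set.range (fun v : S => X v.1) := by
    ext p
    simp
  rw [spanX, this]
  exact finrank_range_le_card _

lemma monomial_mem_spanX_pow {σ : Type} {S : Set σ} (a : ℂ) (m : σ →₀ ℕ)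
    (hm : ∀ v, m v ≠ 0 → v ∈ S) : monomial m a ∈ spanX S ^ m.degree := by
  induction m using Finsupp.induction with
  | zero =>
    simp only [map_zero, pow_zero]
    exact Submodule.mem_one.mpr ⟨a, rfl⟩
  | single_add v b f hv hb ih =>
    rw [map_add, Finsupp.degree_single, monomial_single_add, pow_add]
    refine Submodule.mul_mem_mul (Submodule.pow_mem_pow _ (X_mem_spanX (hm v ?_)) _)
      (ih fun u hu => hm u ?_)
    · simp only [Finsupp.add_apply, Finsupp.single_eq_same]
      omega
    · simp only [Finsupp.add_apply]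
      omega

lemma mem_of_coeff_ne_zero {σ : Type} {S : Set σ} {k : ℕ} {p : MvPolynomial σ ℂ}
    (hp : p ∈ spanX S ^ k) {m : σ →₀ ℕ} (hm : coeff m p ≠ 0) {v : σ} (hv : m v ≠ 0) : v ∈ S := by
  classical
  have h1 : p ∈ supported ℂ S := by
    refine Submodule.pow_induction_on_left (spanX S) (C := fun q => q ∈ supported ℂ S)
      (fun r => Subalgebra.algebraMap_mem _ r) (fun x y hx hy => add_mem hx hy)
      (fun x hx y hy => mul_mem ?_ hy) hp
    have : spanX S ≤ (supported ℂ S).toSubmodule := by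
      refine Submodule.span_le.mpr ?_
      rintro _ ⟨u, hu, rfl⟩
      exact X_mem_supported.mpr hu
    exact this hx
  rw [mem_supported] at h1
  apply h1
  exact (mem_vars_iff_mem_support v).mpr ⟨m, mem_support_iff.mpr hm, Finsupp.mem_support_iff.mpr hv⟩

section act

variable {σ : Type} [Fintype σ] {R : Type} [CommRing R]

/-- The linear substitution given by a matrix. -/
noncomputable def act (M : Matrix σ σ R) : MvPolynomial σ R →ₐ[R] MvPolynomial σ R :=
  bind₁ fun v => ∑ u, C (M v u) * X u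

lemma act_X (M : Matrix σ σ R) (v : σ) : act M (X v) = ∑ u, C (M v u) * X u := by
  simp [act]

lemma act_act (M N : Matrix σ σ R) (p : MvPolynomial σ R) : act N (act M p) = act (M * N) p := by
  have : (act N).comp (act M) = act (M * N) := by
    refine algHom_ext fun v => ?_
    simp only [AlgHom.comp_apply, act_X, map_sum, map_mul, algHom_C, algebraMap_eq,
      Matrix.mul_apply, Finset.mul_sum, Finset.sum_mul]
    rw [Finset.sum_comm]
    refine Finset.sum_congr rfl fun u _ => Finset.sum_congr rfl fun t _ => by ring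
  exact congr($this p)

lemma map_act {R' : Type} [CommRing R'] (f : R →+* R') (M : Matrix σ σ R) (p : MvPolynomial σ R) :
    map f (act M p) = act (M.map f) (map f p) := by
  rw [act, map_bind₁, act]
  congr 2
  funext v
  simp

lemma act_isHomogeneous (M : Matrix σ σ R) {p : MvPolynomial σ R} {k : ℕ}
    (hp : p.IsHomogeneous k) : (act M p).IsHomogeneous k := by
  have := IsHomogeneous.aeval hp (fun v => ∑ u, C (M v u) * X u) (n := 1) (fun v =>
    IsHomogeneous.sum _ _ _ fun u _ => isHomogeneous_C_mul_X _ _)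
  rw [one_mul] at this
  exact this

lemma act_smul_one [DecidableEq σ] (t : R) {p : MvPolynomial σ R} {k : ℕ}
    (hp : p.IsHomogeneous k) : act (t • (1 : Matrix σ σ R)) p = C (t ^ k) * p := by
  have hX : ∀ v, ∑ u, C ((t • (1 : Matrix σ σ R)) v u) * X u = (C t * X v : MvPolynomial σ R) := by
    intro v
    rw [Finset.sum_eq_single v]
    · simp
    · intro u _ hu
      simp [Matrix.one_apply_ne' hu]
    · simp
  conv_lhs => rw [p.as_sum]
  conv_rhs => rw [p.as_sum]
  rw [map_sum, Finset.mul_sum]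
  refine Finset.sum_congr rfl fun d hd => ?_
  have hdeg : d.degree = k := by
    by_contra h
    exact (mem_support_iff.mp hd) (hp.coeff_eq_zero h)
  rw [act, bind₁_monomial, monomial_eq, ← hdeg]
  simp only [hX, mul_pow, Finset.prod_mul_distrib, Finset.prod_pow_eq_pow_sum, Finsupp.prod,
    Finsupp.degree_apply, C_pow]
  ring

lemma act_mem_spanX_pow {S : Set σ} (M : Matrix σ σ ℂ) (hM : ∀ v ∈ S, ∀ u, u ∉ S → M v u = 0)
    {k : ℕ} {p : MvPolynomial σ ℂ} (hp : p ∈ spanX S ^ k) : act M p ∈ spanX S ^ k := by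
  have h1 : (spanX S).map (act M).toLinearMap ≤ spanX S := by
    rw [spanX, Submodule.map_span]
    refine Submodule.span_le.mpr ?_
    rintro _ ⟨_, ⟨v, hv, rfl⟩, rfl⟩
    change act M (X v) ∈ spanX S
    rw [act_X]
    refine Submodule.sum_mem _ fun u _ => ?_
    by_cases hu : u ∈ S
    · rw [← smul_eq_C_mul]
      exact Submodule.smul_mem _ _ (X_mem_spanX hu)
    · simp [hM v hv u hu]
  refine (pow_le_pow_left' h1 k) ?_
  rw [← Submodule.map_pow]
  exact ⟨p, hp, rfl⟩

lemma exists_act_of_mem_subCone [DecidableEq σ] {S : Set σ} [DecidablePred (· ∈ S)] {k : ℕ}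
    {F : MvPolynomial σ ℂ} (hF : F ∈ subCone σ k (Fintype.card S)) :
    ∃ (M : Matrix σ σ ℂ) (w : MvPolynomial σ ℂ), w ∈ spanX S ^ k ∧ F = act M w := by
  obtain ⟨U, hU, hr, hm⟩ := hF
  have : FiniteDimensional ℂ U := Submodule.finiteDimensional_of_le hU
  let b : Module.Basis S ℂ U := (Module.finBasisOfFinrankEq ℂ U hr).reindex (Fintype.equivFin S).symm
  have hb : ∀ v : S, ∃ c : σ → ℂ, ∑ u, c u • X u = (b v : MvPolynomial σ ℂ) := by
    intro v
    have := hU (b v).2
    rw [homogeneousSubmodule_one_eq_span_X] at this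
    exact (Submodule.mem_span_range_iff_exists_fun ℂ).mp this
  choose c hc using hb
  let M : Matrix σ σ ℂ := fun v u => if h : v ∈ S then c ⟨v, h⟩ u else 0
  have h1 : U ≤ (spanX S).map (act M).toLinearMap := by
    intro x hx
    have h2 : x = ∑ v : S, b.repr ⟨x, hx⟩ v • (b v : MvPolynomial σ ℂ) := by
      have := congrArg Subtype.val (b.sum_repr ⟨x, hx⟩)
      rw [Submodule.coe_sum] at this
      exact this.symm
    rw [h2]
    refine Submodule.sum_mem _ fun v _ => Submodule.smul_mem _ _ ⟨X v.1, X_mem_spanX v.2, ?_⟩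
    change act M (X v.1) = _
    rw [act_X, ← hc]
    refine Finset.sum_congr rfl fun u _ => ?_
    simp [M, v.2, smul_eq_C_mul]
  have h3 := (pow_le_pow_left' h1 k) hm
  rw [← Submodule.map_pow] at h3
  obtain ⟨w, hw, rfl⟩ := h3
  exact ⟨M, w, hw, rfl⟩

end act

end Pool.Agent.P.MP_c64be1_ag
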