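import Mathlib

/-!
Definitions for the generic rank with respect to symmetric subspace varieties.

`V` is the space of linear forms in the variables indexed by `σ`, and `S^k V` is the space of
homogeneous polynomials of degree `k` in these variables.  For a subspace `U` of `V` the power
`U ^ k` of the submodule `U` (the span of all products of `k` elements of `U`) is `S^k U`.
-/

namespace Pool.Agent.P.MP_c64be1_ag

open MvPolynomial

/-- The affine cone over the symmetric subspace variety `Sub_r (S^k V)`: the forms lying in
`S^k U` for some `r`-dimensional subspace `U` of the space `V` of linear forms. -/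
def subCone (σ : Type) (k r : ℕ) : Set (MvPolynomial σ ℂ) :=
  {F | ∃ U : Submodule ℂ (MvPolynomial σ ℂ),
    U ≤ homogeneousSubmodule σ ℂ 1 ∧ Module.finrank ℂ U = r ∧ F ∈ U ^ k}

/-- The sums of `s` elements of the cone over `Sub_r (S^k V)`; this is the affine cone over the
union of the spans of `s` points of `Sub_r (S^k V)`. -/
def sums (σ : Type) (k r s : ℕ) : Set (MvPolynomial σ ℂ) :=
  {F | ∃ G : Fin s → MvPolynomial σ ℂ, (∀ i, G i ∈ subCone σ k r) ∧ F = ∑ i, G i}

/-- `S` is Zariski dense in `S^k V`: every polynomial in the coefficients that vanishes on `S`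
vanishes at every form of degree `k`. -/
def ZDense (σ : Type) (k : ℕ) (S : Set (MvPolynomial σ ℂ)) : Prop :=
  ∀ P : MvPolynomial (σ →₀ ℕ) ℂ, (∀ F ∈ S, eval (fun m => coeff m F) P = 0) →
    ∀ F : MvPolynomial σ ℂ, F.IsHomogeneous k → eval (fun m => coeff m F) P = 0

/-- The `s`-th secant variety of `Sub_r (S^k V)` is the whole projective space of `S^k V`. -/
def SecantFills (σ : Type) (k r s : ℕ) : Prop :=
  ZDense σ k (sums σ k r s)

end Pool.Agent.P.MP_c64be1_ag
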