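import Pool.Agent.P.MP_c64be1_ag.Defs

/-! Tangent directions give Zariski density (a form of Terracini's lemma). -/

namespace Pool.Agent.P.MP_c64be1_ag

open MvPolynomial

lemma eval_smul_of_isHomogeneous {τ : Type} {Q : MvPolynomial τ ℂ} {e : ℕ}
    (hQ : Q.IsHomogeneous e) (t : ℂ) (y : τ → ℂ) :
    eval (fun m => t * y m) Q = t ^ e * eval y Q := by
  classical
  conv_lhs => rw [Q.as_sum]
  conv_rhs => rw [Q.as_sum]
  rw [map_sum, map_sum, Finset.mul_sum]
  refine Finset.sum_congr rfl fun d hd => ?_
  have hdeg : d.degree = e := by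
    by_contra h
    exact (mem_support_iff.mp hd) (hQ.coeff_eq_zero h)
  rw [eval_monomial, eval_monomial, ← hdeg]
  simp only [Finsupp.prod, mul_pow, Finset.prod_mul_distrib, Finset.prod_pow_eq_pow_sum,
    Finsupp.degree_apply]
  ring

/-- If through `F₀` there is, in every direction `τ`, a curve inside `S`, then `S` is dense. -/
theorem zdense_of_curves {σ : Type} {k : ℕ} {S : Set (MvPolynomial σ ℂ)}
    (hS : ∀ G ∈ S, G.IsHomogeneous k) (F₀ : MvPolynomial σ ℂ) (hF₀ : F₀.IsHomogeneous k)
    (h : ∀ τ : MvPolynomial σ ℂ, τ.IsHomogeneous k → ∃ η : ℂ → MvPolynomial σ ℂ,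
      (∀ m, Continuous fun ε => coeff m (η ε)) ∧ η 0 = τ ∧ ∀ ε, F₀ + ε • η ε ∈ S) :
    ZDense σ k S := by
  classical
  intro P hP F hF
  set Q : MvPolynomial (σ →₀ ℕ) ℂ := bind₁ (fun m => X m + C (coeff m F₀)) P with hQdef
  have hQ : ∀ G : MvPolynomial σ ℂ,
      eval (fun m => coeff m G) Q = eval (fun m => coeff m (F₀ + G)) P := by
    intro G
    have := eval₂Hom_bind₁ (RingHom.id ℂ) (fun m => coeff m G)
      (fun m => (X m + C (coeff m F₀) : MvPolynomial (σ →₀ ℕ) ℂ)) P
    simp only [coe_eval₂Hom, eval₂_id] at this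
    rw [hQdef, this]
    congr 2
    funext m
    simp [add_comm]
  -- every homogeneous component of `Q` vanishes on forms of degree `k`
  have key : ∀ e : ℕ, ∀ τ : MvPolynomial σ ℂ, τ.IsHomogeneous k →
      eval (fun m => coeff m τ) (homogeneousComponent e Q) = 0 := by
    intro e
    induction e using Nat.strong_induction_on with
    | _ e ih =>
      intro τ hτ
      obtain ⟨η, hcont, h0, hmem⟩ := h τ hτ
      let N := Q.totalDegree + e + 1
      let g : ℂ → ℂ := fun ε => ∑ j ∈ Finset.range N,
        ε ^ j * eval (fun m => coeff m (η ε)) (homogeneousComponent (e + j) Q)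
      have hg : Continuous g := by
        refine continuous_finsetSum _ fun j _ => ?_
        refine (continuous_id.pow j).mul ?_
        exact (MvPolynomial.continuous_eval _).comp (continuous_pi hcont)
      have hgz : ∀ ε : ℂ, ε ≠ 0 → g ε = 0 := by
        intro ε hε
        have hhom : (η ε).IsHomogeneous k := by
          have h1 : (ε • η ε).IsHomogeneous k := by
            have := (hS _ (hmem ε)).sub hF₀
            simpa using this
          have h2 := (homogeneousSubmodule σ ℂ k).smul_mem ε⁻¹ h1
          rwa [smul_smul, inv_mul_cancel₀ hε, one_smul] at h2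
        have hz : eval (fun m => coeff m (ε • η ε)) Q = 0 := by
          rw [hQ]; exact hP _ (hmem ε)
        have hsum : Q = ∑ j ∈ Finset.range (e + N), homogeneousComponent j Q := by
          conv_lhs => rw [← sum_homogeneousComponent Q]
          refine Finset.sum_subset (Finset.range_mono (by omega)) fun j _ hj => ?_
          apply homogeneousComponent_eq_zero
          simpa using hj
        rw [hsum, map_sum, Finset.sum_range_add] at hz
        have hcomp : ∀ j, eval (fun m => coeff m (ε • η ε)) (homogeneousComponent j Q)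
            = ε ^ j * eval (fun m => coeff m (η ε)) (homogeneousComponent j Q) := by
          intro j
          rw [← eval_smul_of_isHomogeneous (homogeneousComponent_isHomogeneous j Q)]
          simp
        simp only [hcomp] at hz
        have hlow : ∑ j ∈ Finset.range e,
            ε ^ j * eval (fun m => coeff m (η ε)) (homogeneousComponent j Q) = 0 := by
          refine Finset.sum_eq_zero fun j hj => ?_
          rw [ih j (Finset.mem_range.mp hj) _ hhom, mul_zero]
        rw [hlow, zero_add] at hz
        have : ε ^ e * g ε = 0 := by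
          rw [← hz, Finset.mul_sum]
          refine Finset.sum_congr rfl fun j _ => ?_
          rw [pow_add]; ring
        exact (mul_eq_zero.mp this).resolve_left (pow_ne_zero _ hε)
      have hg0 : g 0 = 0 := by
        have hd : Dense ({0}ᶜ : Set ℂ) := dense_compl_singleton 0
        have := Continuous.ext_on hd hg continuous_const (fun ε hε => hgz ε hε)
        exact congrFun this 0
      have : g 0 = eval (fun m => coeff m τ) (homogeneousComponent e Q) := by
        simp only [g]
        rw [Finset.sum_eq_single 0]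
        · simp [h0]
        · intro j _ hj
          simp [hj]
        · intro hj
          exact absurd (Finset.mem_range.mpr (by omega)) hj
      rw [← this, hg0]
  have h1 : eval (fun m => coeff m (F - F₀)) Q = 0 := by
    rw [← sum_homogeneousComponent Q, map_sum]
    exact Finset.sum_eq_zero fun j _ => key j _ (hF.sub hF₀)
  rw [hQ] at h1
  simpa using h1

/-- First order Taylor expansion of a substitution. -/
lemma taylor {σ : Type} [Fintype σ] [DecidableEq σ] (a : σ → MvPolynomial σ ℂ)
    (F : MvPolynomial σ ℂ) :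
    ∃ γ : Polynomial (MvPolynomial σ ℂ), ∀ ε : ℂ,
      aeval (fun v => X v + ε • a v) F =
        F + ε • (∑ v, a v * pderiv v F + ε • γ.eval (C ε)) := by
  induction F using MvPolynomial.induction_on with
  | C r => exact ⟨0, fun ε => by simp⟩
  | add p q hp hq =>
    obtain ⟨γ₁, h₁⟩ := hp
    obtain ⟨γ₂, h₂⟩ := hq
    refine ⟨γ₁ + γ₂, fun ε => ?_⟩
    simp only [map_add, h₁, h₂, mul_add, Finset.sum_add_distrib, Polynomial.eval_add, smul_add]
    abel
  | mul_X p w hp =>
    obtain ⟨γ, h⟩ := hp
    refine ⟨γ * Polynomial.C (X w) + Polynomial.C ((∑ v, a v * pderiv v p) * a w)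
      + Polynomial.X * γ * Polynomial.C (a w), fun ε => ?_⟩
    have hs : ∑ v, a v * pderiv v (p * X w) = (∑ v, a v * pderiv v p) * X w + p * a w := by
      simp only [Derivation.leibniz, smul_eq_mul, mul_add, Finset.sum_add_distrib,
        Finset.sum_mul, pderiv_X]
      rw [add_comm]
      congr 1
      · refine Finset.sum_congr rfl fun v _ => by ring
      · rw [Finset.sum_eq_single w]
        · simp [mul_comm]
        · intro v _ hv
          simp [hv]
        · simp
    rw [map_mul, h, aeval_X, hs]
    simp only [Polynomial.eval_add, Polynomial.eval_mul, Polynomial.eval_C, Polynomial.eval_X,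
      smul_eq_C_mul]
    ring

lemma continuous_coeff_eval {σ : Type} (γ : Polynomial (MvPolynomial σ ℂ)) (m : σ →₀ ℕ) :
    Continuous fun ε : ℂ => coeff m (γ.eval (C ε)) := by
  induction γ using Polynomial.induction_on' with
  | add p q hp hq =>
    simp only [Polynomial.eval_add, coeff_add]
    exact hp.add hq
  | monomial n r =>
    have : (fun ε : ℂ => coeff m ((Polynomial.monomial n r).eval (C ε)))
        = fun ε : ℂ => ε ^ n * coeff m r := by
      funext ε
      rw [Polynomial.eval_monomial, mul_comm, ← C_pow, coeff_C_mul]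
    rw [this]
    fun_prop

lemma exists_between_finrank {W : Type} [AddCommGroup W] [Module ℂ W] (L : Submodule ℂ W)
    [FiniteDimensional ℂ L] (r : ℕ) (hr : r ≤ Module.finrank ℂ L) (U : Submodule ℂ W)
    (hU : U ≤ L) (hUr : Module.finrank ℂ U ≤ r) :
    ∃ U' : Submodule ℂ W, U ≤ U' ∧ U' ≤ L ∧ Module.finrank ℂ U' = r := by
  induction r with
  | zero => exact ⟨U, le_rfl, hU, by omega⟩
  | succ r ih =>
    by_cases h : Module.finrank ℂ U = r + 1
    · exact ⟨U, le_rfl, hU, h⟩
    obtain ⟨U', h1, h2, h3⟩ := ih (by omega) (by omega)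
    have hne : U' ≠ L := by
      rintro rfl
      omega
    obtain ⟨x, hxL, hxU⟩ := SetLike.exists_of_lt (lt_of_le_of_ne h2 hne)
    have : FiniteDimensional ℂ U' := Submodule.finiteDimensional_of_le h2
    have hx0 : x ≠ 0 := fun h0 => hxU (h0 ▸ U'.zero_mem)
    refine ⟨U' ⊔ Submodule.span ℂ {x}, h1.trans le_sup_left,
      sup_le h2 ((Submodule.span_singleton_le_iff_mem _ _).mpr hxL), ?_⟩
    have hd : Disjoint U' (Submodule.span ℂ {x}) :=
      (Submodule.disjoint_span_singleton' hx0).mpr hxU
    have := Submodule.finrank_sup_add_finrank_inf_eq U' (Submodule.span ℂ {x})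
    rw [hd.eq_bot, finrank_bot, finrank_span_singleton hx0] at this
    omega

lemma finrank_lin (σ : Type) [Fintype σ] :
    Module.finrank ℂ (homogeneousSubmodule σ ℂ 1) = Fintype.card σ := by
  rw [homogeneousSubmodule_one_eq_span_X]
  exact finrank_span_eq_card (linearIndependent_X σ ℂ)

instance finiteDimensional_lin (σ : Type) [Fintype σ] :
    FiniteDimensional ℂ (homogeneousSubmodule σ ℂ 1) := by
  rw [homogeneousSubmodule_one_eq_span_X]
  exact FiniteDimensional.span_of_finite ℂ (Set.finite_range _)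

lemma mem_subCone_of_le {σ : Type} [Fintype σ] {k r : ℕ} (hr : r ≤ Fintype.card σ)
    {U : Submodule ℂ (MvPolynomial σ ℂ)} (hU : U ≤ homogeneousSubmodule σ ℂ 1)
    (hUr : Module.finrank ℂ U ≤ r) {F : MvPolynomial σ ℂ} (hF : F ∈ U ^ k) :
    F ∈ subCone σ k r := by
  obtain ⟨U', h1, h2, h3⟩ := exists_between_finrank (homogeneousSubmodule σ ℂ 1) r
    (by rw [finrank_lin]; exact hr) U hU hUr
  exact ⟨U', h2, h3, (pow_le_pow_left' h1 k : U ^ k ≤ U' ^ k) hF⟩

lemma isHomogeneous_of_mem_pow {σ : Type} {k : ℕ} {U : Submodule ℂ (MvPolynomial σ ℂ)}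
    (hU : U ≤ homogeneousSubmodule σ ℂ 1) {F : MvPolynomial σ ℂ} (hF : F ∈ U ^ k) :
    F.IsHomogeneous k := by
  have : U ^ k ≤ homogeneousSubmodule σ ℂ 1 ^ k := pow_le_pow_left' hU k
  rw [homogeneousSubmodule_one_pow] at this
  exact this hF

lemma isHomogeneous_of_mem_sums {σ : Type} {k r s : ℕ} {F : MvPolynomial σ ℂ}
    (hF : F ∈ sums σ k r s) : F.IsHomogeneous k := by
  obtain ⟨G, hG, rfl⟩ := hF
  refine IsHomogeneous.sum _ _ _ fun i _ => ?_
  obtain ⟨U, hU, -, hm⟩ := hG i
  exact isHomogeneous_of_mem_pow hU hm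

/-- Terracini's lemma, the direction used here. -/
theorem secantFills_of_tangent {σ ι : Type} [Fintype σ] [DecidableEq σ] [Fintype ι] {k r s : ℕ}
    (hs : Fintype.card ι = s) (hr : r ≤ Fintype.card σ)
    (U : ι → Submodule ℂ (MvPolynomial σ ℂ)) (hU : ∀ i, U i ≤ homogeneousSubmodule σ ℂ 1)
    (hUr : ∀ i, Module.finrank ℂ (U i) ≤ r) (F : ι → MvPolynomial σ ℂ) (hF : ∀ i, F i ∈ U i ^ k)
    (h : ∀ τ : MvPolynomial σ ℂ, τ.IsHomogeneous k →
      ∃ (w : ι → MvPolynomial σ ℂ) (a : ι → σ → MvPolynomial σ ℂ), (∀ i, w i ∈ U i ^ k) ∧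
        (∀ i v, (a i v).IsHomogeneous 1) ∧ τ = ∑ i, (w i + ∑ v, a i v * pderiv v (F i))) :
    SecantFills σ k r s := by
  refine zdense_of_curves (fun G hG => isHomogeneous_of_mem_sums hG) (∑ i, F i)
    (IsHomogeneous.sum _ _ _ fun i _ => isHomogeneous_of_mem_pow (hU i) (hF i)) fun τ hτ => ?_
  obtain ⟨w, a, hw, ha, rfl⟩ := h τ hτ
  choose γ hγ using fun i => taylor (a i) (F i)
  choose δ hδ using fun i => taylor (a i) (w i)
  let Γ : Polynomial (MvPolynomial σ ℂ) := ∑ i, (Polynomial.C (w i + ∑ v, a i v * pderiv v (F i))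
    + Polynomial.X * (γ i + Polynomial.C (∑ v, a i v * pderiv v (w i)) + Polynomial.X * δ i))
  refine ⟨fun ε => Γ.eval (C ε), continuous_coeff_eval Γ, ?_, fun ε => ?_⟩
  · simp [Γ, Polynomial.eval_finsetSum]
  · let φ : ι → MvPolynomial σ ℂ →ₐ[ℂ] MvPolynomial σ ℂ :=
      fun i => aeval (fun v => X v + ε • a i v)
    let e : ι ≃ Fin s := Fintype.equivFinOfCardEq hs
    refine ⟨fun j => φ (e.symm j) (F (e.symm j) + ε • w (e.symm j)), fun j => ?_, ?_⟩
    · set i := e.symm j
      have : FiniteDimensional ℂ (U i) := Submodule.finiteDimensional_of_le (hU i)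
      refine mem_subCone_of_le hr (U := (U i).map (φ i).toLinearMap) ?_
        ((Submodule.finrank_map_le _ _).trans (hUr i)) ?_
      · rintro _ ⟨p, hp, rfl⟩
        have := IsHomogeneous.aeval (hU i hp) (fun v => X v + ε • a i v) (n := 1) (fun v =>
          (isHomogeneous_X ℂ v).add ((homogeneousSubmodule σ ℂ 1).smul_mem ε (ha i v)))
        rw [one_mul] at this
        exact this
      · rw [← Submodule.map_pow]
        exact ⟨_, (U i ^ k).add_mem (hF i) ((U i ^ k).smul_mem ε (hw i)), rfl⟩
    · rw [Equiv.sum_comp e.symm (fun i => φ i (F i + ε • w i))]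
      simp only [Γ, Polynomial.eval_finsetSum, Finset.smul_sum, ← Finset.sum_add_distrib]
      refine Finset.sum_congr rfl fun i _ => ?_
      simp only [φ, map_add, map_smul, hγ, hδ]
      simp only [Polynomial.eval_add, Polynomial.eval_mul,
        Polynomial.eval_C, Polynomial.eval_X, smul_eq_C_mul]
      ring

end Pool.Agent.P.MP_c64be1_ag
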