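import Pool.Agent.P.MP_c64be1_ag.Slots

/-! From a combinatorial design to the spanning statement, by a genericity argument in each
degree of the grading by the group `A`. -/

namespace Pool.Agent.P.MP_c64be1_ag

open MvPolynomial Function

lemma exists_common_nonroot {Θ T : Type} [Fintype T] (P : T → MvPolynomial Θ ℂ)
    (h : ∀ t, ∃ θ, eval θ (P t) ≠ 0) : ∃ θ, ∀ t, eval θ (P t) ≠ 0 := by
  have h1 : ∏ t, P t ≠ 0 := by
    refine Finset.prod_ne_zero_iff.mpr fun t _ h0 => ?_
    obtain ⟨θ, hθ⟩ := h t
    exact hθ (by rw [h0, map_zero])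
  by_contra hn
  push Not at hn
  apply h1
  refine MvPolynomial.funext fun θ => ?_
  obtain ⟨t, ht⟩ := hn θ
  rw [map_prod, map_zero]
  exact Finset.prod_eq_zero (Finset.mem_univ t) ht

lemma mem_of_det_ne_zero {J W : Type} [Fintype J] [DecidableEq J] [AddCommGroup W] [Module ℂ W]
    (S : Submodule ℂ W) (M : Matrix J J ℂ) (hM : M.det ≠ 0) (v : J → W)
    (h : ∀ j, ∑ o, M j o • v o ∈ S) (o : J) : v o ∈ S := by
  have h1 : v o = ∑ j, M⁻¹ o j • ∑ t, M j t • v t := by
    simp only [Finset.smul_sum, smul_smul]
    rw [Finset.sum_comm]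
    simp only [← Finset.sum_smul, ← Matrix.mul_apply, Matrix.nonsing_inv_mul _ (Ne.isUnit hM)]
    simp [Matrix.one_apply]
  rw [h1]
  exact S.sum_mem fun j _ => S.smul_mem _ (h j)

variable {ι A B : Type} [Fintype ι] [DecidableEq ι] [AddCommGroup A]

/-- The degree of a cell. -/
def dg (a : ι → A) : A := ∑ l, a l

lemma dg_update (a : ι → A) (i : ι) (x : A) : dg (update a i x) = dg a - a i + x := by
  rw [dg, dg, Finset.sum_update_of_mem (Finset.mem_univ i),
    ← Finset.add_sum_erase _ _ (Finset.mem_univ i), Finset.sdiff_singleton_eq_erase]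
  abel

lemma eq_of_dg {a b : ι → A} (h : dg a = dg b) (t : ι) (h2 : ∀ l, l ≠ t → a l = b l) : a = b := by
  have h1 : b = update a t (b t) := by
    funext l
    by_cases hl : l = t
    · subst hl
      simp
    · rw [update_of_ne hl, h2 l hl]
  have h3 : dg b = dg a - a t + b t := by
    conv_lhs => rw [h1]
    exact dg_update _ _ _
  have h4 : a t = b t := by
    rw [h] at h3
    have : b t - a t = 0 := by
      have h5 : dg b - a t + b t - dg b = 0 := by rw [← h3, sub_self]
      rw [← h5]
      abel
    exact (sub_eq_zero.mp this).symm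
  rw [h1, ← h4, update_eq_self]

variable (ι A B) in
/-- An assignment of the cells to the available tangent vectors. -/
structure Design where
  d : ι → B → A
  orb : ι → ι → Bool
  e : ι → ι → A
  p : A → ι → ι → ι → A
  lam : ι → ι → ι
  lab : (ι → A) → ι × (B ⊕ ι)
  free_deg : ∀ ω i b, lab ω = (i, Sum.inl b) → dg ω - ω i = d i b
  free_inj : ∀ ω ω' i b, lab ω = (i, Sum.inl b) → lab ω' = (i, Sum.inl b) → dg ω = dg ω' → ω = ω'
  fam_ne : ∀ ω i j, lab ω = (i, Sum.inr j) → j ≠ i
  diag_deg : ∀ ω i j, lab ω = (i, Sum.inr j) → orb i j = false → dg ω - ω i = e i j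
  diag_inj : ∀ ω ω' i j, lab ω = (i, Sum.inr j) → lab ω' = (i, Sum.inr j) → orb i j = false →
    dg ω = dg ω' → ω j = ω' j → ω = ω'
  orb_line : ∀ ω i j, lab ω = (i, Sum.inr j) → orb i j = true →
    ∀ l, l ≠ i → l ≠ lam i j → ω l = p (dg ω) i j l
  lam_ne : ∀ i j, lam i j ≠ i

variable (ι A B) in
/-- The parameters. -/
abbrev Par := (ι × (B ⊕ ι) × (ι → A)) ⊕ (ι × ι × ι × A)

namespace Design

variable [DecidableEq A] (D : Design ι A B) {R : Type} [CommRing R]

/-- Free vectors. -/
def yfree (θ : Par ι A B → R) (i : ι) (b : B) (a : ι → A) : R :=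
  if dg a - a i = D.d i b then θ (Sum.inl (i, Sum.inl b, a)) else 0

/-- Vectors of diagonal type. -/
def ydiag (θ : Par ι A B → R) (i j : ι) (u : A) (a : ι → A) : R :=
  if a j = u ∧ dg a - a i = D.e i j then θ (Sum.inl (i, Sum.inr j, a)) else 0

/-- Graded pieces of rank one tensors. -/
def yorb (θ : Par ι A B → R) (i o : ι) (t : A) (a : ι → A) : R :=
  if dg a - a i = t then ∏ l ∈ Finset.univ.erase i, θ (Sum.inr (i, o, l, a l)) else 0

/-- The blocks treated by rank one tensors. -/
abbrev J (i : ι) := {o : ι // o ≠ i ∧ D.orb i o = true}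

/-- The symmetric families. -/
def sfam (θ : Par ι A B → R) (i j : ι) (v : A) (a : ι → A) : R :=
  if D.orb i j = true then ∑ o : D.J i, θ (Sum.inr (i, o.1, j, v)) * yorb θ i o.1 (-v) a
  else D.ydiag θ i j v a

/-- The vector assigned to a cell. -/
def row (θ : Par ι A B → R) (ω : ι → A) : (ι → A) → R :=
  match D.lab ω with
  | (i, Sum.inl b) => ev i (ω i) (D.yfree θ i b)
  | (i, Sum.inr j) => ev i (ω i)
      (if D.orb i j = true then yorb θ i j (dg ω - ω i) else D.ydiag θ i j (ω j))

lemma row_inl (θ : Par ι A B → R) {ω : ι → A} {i : ι} {b : B} (h : D.lab ω = (i, Sum.inl b)) :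
    D.row θ ω = ev i (ω i) (D.yfree θ i b) := by
  simp only [row, h]

lemma row_inr (θ : Par ι A B → R) {ω : ι → A} {i j : ι} (h : D.lab ω = (i, Sum.inr j)) :
    D.row θ ω = ev i (ω i)
      (if D.orb i j = true then yorb θ i j (dg ω - ω i) else D.ydiag θ i j (ω j)) := by
  simp only [row, h]

lemma map_row {R' : Type} [CommRing R'] (f : R →+* R') (θ : Par ι A B → R) (ω ω' : ι → A) :
    f (D.row θ ω ω') = D.row (fun t => f (θ t)) ω ω' := by
  rcases h : D.lab ω with ⟨i, b | j⟩
  · rw [D.row_inl _ h, D.row_inl _ h]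
    simp only [ev, yfree]
    split_ifs <;> simp
  · rw [D.row_inr _ h, D.row_inr _ h]
    by_cases ho : D.orb i j = true
    · simp only [ev, yorb, ho, if_true]
      split_ifs <;> simp
    · simp only [ev, ydiag, ho, if_false, Bool.false_eq_true]
      split_ifs <;> simp

lemma row_eq_zero (θ : Par ι A B → R) {ω ω' : ι → A} (hne : dg ω' ≠ dg ω) :
    D.row θ ω ω' = 0 := by
  have key : ∀ i, ω' i = ω i → dg (update ω' i 0) - update ω' i 0 i ≠ dg ω - ω i := by
    intro i hi h
    rw [dg_update, update_self, hi] at h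
    apply hne
    simpa using h
  rcases h : D.lab ω with ⟨i, b | j⟩
  · rw [D.row_inl _ h]
    simp only [ev, yfree]
    split_ifs with h1 h2
    · exact absurd (h2.trans (D.free_deg ω i b h).symm) (key i h1)
    · rfl
    · rfl
  · rw [D.row_inr _ h]
    by_cases ho : D.orb i j = true
    · simp only [ev, yorb, ho, if_true]
      split_ifs with h1 h2
      · exact absurd h2 (key i h1)
      · rfl
      · rfl
    · simp only [ev, ydiag, ho, if_false, Bool.false_eq_true]
      split_ifs with h1 h2
      · exact absurd (h2.2.trans (D.diag_deg ω i j h (by simpa using ho)).symm) (key i h1)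
      · rfl
      · rfl

lemma sfam_symm (θ : Par ι A B → R) {i j : ι} (hj : j ≠ i) (u : A) (a : ι → A) :
    D.sfam θ i j (a j) (update a j u) = D.sfam θ i j u a := by
  have hji : j ∈ Finset.univ.erase i := Finset.mem_erase.mpr ⟨hj, Finset.mem_univ j⟩
  simp only [sfam]
  split_ifs with ho
  · refine Finset.sum_congr rfl fun o _ => ?_
    simp only [yorb]
    have hc : dg (update a j u) - update a j u i = -a j ↔ dg a - a i = -u := by
      rw [dg_update, update_of_ne hj.symm]
      constructor
      · intro h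
        have : dg a - a i = dg a - a j + u - a i + a j - u := by abel
        rw [this, h]
        abel
      · intro h
        have : dg a - a j + u - a i = dg a - a i - a j + u := by abel
        rw [this, h]
        abel
    by_cases h : dg a - a i = -u
    · rw [if_pos h, if_pos (hc.mpr h), ← Finset.mul_prod_erase _ _ hji,
        ← Finset.mul_prod_erase _ _ hji, update_self, mul_left_comm]
      congr 2
      refine Finset.prod_congr rfl fun l hl => ?_
      rw [update_of_ne (Finset.ne_of_mem_erase hl)]
    · rw [if_neg h, if_neg (fun h' => h (hc.mp h')), mul_zero, mul_zero]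
  · by_cases h : a j = u
    · rw [← h, update_eq_self]
    · simp only [ydiag, update_self]
      rw [if_neg (fun h' => h h'.1.symm), if_neg (fun h' => h h'.1)]

open Classical in
/-- The special point for degree `σ`. -/
noncomputable def special (σ : A) : Par ι A B → ℂ
  | Sum.inl (i, lb, a) => if ∃ ω, dg ω = σ ∧ D.lab ω = (i, lb) ∧ update ω i 0 = a then 1 else 0
  | Sum.inr (i, o, l, t) => if l = D.lam i o then 1 else if t = D.p σ i o l then 1 else 0

omit [Fintype ι] [DecidableEq A] in
lemma eq_of_update {ω ω' : ι → A} {i : ι} (h1 : ω' i = ω i) (h2 : update ω i 0 = update ω' i 0) :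
    ω = ω' := by
  funext l
  by_cases hl : l = i
  · rw [hl, h1]
  · have := congrFun h2 l
    rwa [update_of_ne hl, update_of_ne hl] at this

lemma row_special_self (ω : ι → A) : D.row (D.special (dg ω)) ω ω = 1 := by
  have hd : ∀ i, dg (update ω i 0) - update ω i 0 i = dg ω - ω i := by
    intro i
    rw [dg_update, update_self]
    simp
  rcases h : D.lab ω with ⟨i, b | j⟩
  · rw [D.row_inl _ h]
    simp only [ev, yfree, if_true, hd, D.free_deg ω i b h, special]
    rw [if_pos ⟨ω, rfl, h, rfl⟩]
  · rw [D.row_inr _ h]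
    by_cases ho : D.orb i j = true
    · simp only [ev, yorb, ho, if_true, hd, special]
      refine Finset.prod_eq_one fun l hl => ?_
      have hli := Finset.ne_of_mem_erase hl
      split_ifs with h1 h2
      · rfl
      · rfl
      · exact absurd (by rw [update_of_ne hli]; exact D.orb_line ω i j h ho l hli h1) h2
    · simp only [ev, ydiag, ho, if_false, Bool.false_eq_true, if_true, hd, special,
        D.diag_deg ω i j h (by simpa using ho), update_of_ne (D.fam_ne ω i j h), and_self]
      rw [if_pos ⟨ω, rfl, h, rfl⟩]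

lemma row_special_ne {ω ω' : ι → A} (hd : dg ω' = dg ω) (hne : ω ≠ ω') :
    D.row (D.special (dg ω)) ω ω' = 0 := by
  rcases h : D.lab ω with ⟨i, b | j⟩
  · rw [D.row_inl _ h]
    simp only [ev, yfree, special]
    split_ifs with h1 h2 h3
    · obtain ⟨ω'', h4, h5, h6⟩ := h3
      rw [D.free_inj ω'' ω i b h5 h h4] at h6
      exact absurd (eq_of_update h1 h6) hne
    · rfl
    · rfl
    · rfl
  · rw [D.row_inr _ h]
    by_cases ho : D.orb i j = true
    · simp only [ev, yorb, ho, if_true, special]
      split_ifs with h1 h2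
      · by_contra h0
        apply hne
        refine eq_of_dg hd.symm (D.lam i j) fun l hl => ?_
        by_cases hli : l = i
        · rw [hli, h1]
        · have h3 := Finset.prod_ne_zero_iff.mp h0 l (Finset.mem_erase.mpr ⟨hli, Finset.mem_univ _⟩)
          rw [if_neg hl, update_of_ne hli] at h3
          rw [D.orb_line ω i j h ho l hli hl]
          by_contra h4
          exact h3 (if_neg fun h5 => h4 h5.symm)
      · rfl
      · rfl
    · simp only [ev, ydiag, ho, if_false, Bool.false_eq_true, special]
      split_ifs with h1 h2 h3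
      · obtain ⟨ω'', h4, h5, h6⟩ := h3
        have hj := D.fam_ne ω i j h
        have h7 : ω'' j = ω j := by
          have := congrFun h6 j
          rw [update_of_ne hj] at this
          rw [this, h2.1]
        rw [D.diag_inj ω'' ω i j h5 h (by simpa using ho) h4 h7] at h6
        exact absurd (eq_of_update h1 h6) hne
      · rfl
      · rfl
      · rfl

end Design

theorem fills_of_design [Fintype A] [DecidableEq A] [Fintype B] [DecidableEq B] {r : ℕ}
    (hr : r + Fintype.card A = Fintype.card ((ι × A) ⊕ B)) (D : Design ι A B) :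
    SecantFills ((ι × A) ⊕ B) (Fintype.card ι) r (Fintype.card ι) := by
  let M : {R : Type} → [CommRing R] → (Par ι A B → R) → (σ : A) →
      Matrix {ω : ι → A // dg ω = σ} {ω : ι → A // dg ω = σ} R :=
    fun θ σ ω ω' => D.row θ ω.1 ω'.1
  let N : {R : Type} → (Par ι A B → R) → (i : ι) → A → Matrix (D.J i) (D.J i) R :=
    fun θ i u j o => θ (Sum.inr (i, o.1, j.1, u))
  have hM : ∀ (θ : Par ι A B → ℂ) σ, MvPolynomial.eval θ (M X σ).det = (M θ σ).det := by
    intro θ σ
    rw [RingHom.map_det]
    congr 1
    ext ω ω'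
    simp [M, D.map_row]
  have hN : ∀ (θ : Par ι A B → ℂ) i u, MvPolynomial.eval θ (N X i u).det = (N θ i u).det := by
    intro θ i u
    rw [RingHom.map_det]
    congr 1
    ext ω ω'
    simp [N]
  obtain ⟨θ, hθ⟩ := exists_common_nonroot (Θ := Par ι A B) (T := A ⊕ (ι × A))
    (Sum.elim (fun σ => (M X σ).det) (fun t => (N X t.1 t.2).det)) (by
      rintro (σ | ⟨i, u⟩)
      · refine ⟨D.special σ, ?_⟩
        rw [Sum.elim_inl, hM]
        have : M (D.special σ) σ = 1 := by
          ext ⟨ω, rfl⟩ ⟨ω', hω'⟩
          by_cases h : ω = ω'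
          · subst h
            simp [M, D.row_special_self]
          · rw [Matrix.one_apply_ne (by simpa using h)]
            exact D.row_special_ne hω' h
        simp [this]
      · refine ⟨Sum.elim 0 fun t => if t.2.2.1 = t.2.1 then 1 else 0, ?_⟩
        rw [Sum.elim_inr, hN]
        have : N (Sum.elim 0 fun t => if t.2.2.1 = t.2.1 then (1 : ℂ) else 0) i u = 1 := by
          ext j o
          simp [N, Matrix.one_apply, Subtype.ext_iff]
        simp [this])
  refine fills_of_span hr (D.yfree θ) (D.sfam θ) (fun i j hj => D.sfam_symm θ hj) ?_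
  intro S hfree hfam
  have horb : ∀ i x (o : D.J i) t, ev i x (Design.yorb θ i o.1 t) ∈ S := by
    intro i x o t
    have h1 := hθ (Sum.inr (i, -t))
    rw [Sum.elim_inr, hN] at h1
    refine mem_of_det_ne_zero S _ h1 (fun o => ev i x (Design.yorb θ i o.1 t)) (fun j => ?_) o
    convert hfam i j.1 j.2.1 x (-t) using 1
    funext ω
    simp only [N, Finset.sum_apply, Pi.smul_apply, ev, Design.sfam, j.2.2, if_true, neg_neg,
      smul_eq_mul]
    split_ifs <;> simp
  have hrow : ∀ ω, D.row θ ω ∈ S := by
    intro ω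
    rcases h : D.lab ω with ⟨i, b | j⟩
    · rw [D.row_inl _ h]
      exact hfree _ _ _
    · rw [D.row_inr _ h]
      split_ifs with ho
      · exact horb i _ ⟨j, D.fam_ne ω i j h, ho⟩ _
      · have h2 : D.ydiag θ i j (ω j) = D.sfam θ i j (ω j) := by
          funext a
          simp [Design.sfam, ho]
        rw [h2]
        exact hfam i j (D.fam_ne ω i j h) (ω i) (ω j)
  have hsingle : ∀ ω : ι → A, (Pi.single ω 1 : (ι → A) → ℂ) ∈ S := by
    intro ω
    have h1 := hθ (Sum.inl (dg ω))
    rw [Sum.elim_inl, hM] at h1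
    refine mem_of_det_ne_zero S _ h1 (fun o => (Pi.single o.1 1 : (ι → A) → ℂ)) (fun j => ?_)
      ⟨ω, rfl⟩
    convert hrow j.1 using 1
    funext ω'
    simp only [M, Finset.sum_apply, Pi.smul_apply, smul_eq_mul]
    by_cases h : dg ω' = dg ω
    · rw [Finset.sum_eq_single ⟨ω', h⟩]
      · simp
      · intro o _ ho
        rw [Pi.single_eq_of_ne (fun h' => ho (Subtype.ext h'.symm)), mul_zero]
      · simp
    · rw [D.row_eq_zero θ (by rw [j.2]; exact h)]
      refine Finset.sum_eq_zero fun o _ => ?_
      rw [Pi.single_eq_of_ne (fun h' => h (by rw [h', o.2])), mul_zero]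
  rw [eq_top_iff]
  intro φ _
  rw [pi_eq_sum_univ' φ]
  exact S.sum_mem fun ω _ => S.smul_mem _ (hsingle ω)

end Pool.Agent.P.MP_c64be1_ag
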