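import Pool.Agent.P.MP_c64be1_ag.Generic

/-! A design from a layout of lines. -/

namespace Pool.Agent.P.MP_c64be1_ag

open Function

/-- Families that involve one of the two special directions. -/
abbrev FamA (κ : Type) := (Bool × Bool × κ) ⊕ Bool

/-- Resources that cover one line parallel to the first axis. -/
abbrev Res (κ Q : Type) := FamA κ ⊕ (Q ⊕ Unit)

/-- The ordered pair of directions of a family. -/
def famOf {κ : Type} : FamA κ → Option (Option κ) × Option (Option κ)
  | Sum.inl (false, false, l) => (some none, some (some l))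
  | Sum.inl (false, true, l) => (none, some (some l))
  | Sum.inl (true, false, l) => (some (some l), some none)
  | Sum.inl (true, true, l) => (some (some l), none)
  | Sum.inr false => (some none, none)
  | Sum.inr true => (none, some none)

/-- A layout of points and lines in the quotient grid. -/
structure Layout (κ A Q : Type) where
  lbl : (κ → A) → Res κ Q ⊕ ((κ × κ) ⊕ Unit)
  pt : Res κ Q → κ → A
  base : κ × κ → κ → A
  K : κ → κ → Bool
  hpt : ∀ z r, lbl z = Sum.inl r → z = pt r
  hK : ∀ z π, lbl z = Sum.inr (Sum.inl π) →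
    K π.1 π.2 = true ∧ K π.2 π.1 = false ∧ ∀ l, l ≠ π.1 → z l = base π l

variable {κ A Q B : Type}

/-- The cells left for the free vectors. -/
def Layout.left [Zero A] (L : Layout κ A Q) (t₁ : A) : Set (A × (κ → A)) :=
  {x | L.lbl x.2 = Sum.inr (Sum.inr ()) ∨
    ((∃ π, L.lbl x.2 = Sum.inr (Sum.inl π)) ∧ x.1 ≠ 0 ∧ x.1 ≠ t₁)}

lemma exists_left_inverse_on {X Y Z : Type} [Nonempty Z] {S : Set X} {G : X → Y}
    (hG : Set.InjOn G S) (f : X → Z) : ∃ h : Y → Z, ∀ x ∈ S, h (G x) = f x := by
  classical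
  refine ⟨fun y => if h : ∃ x ∈ S, G x = y then f h.choose else Classical.arbitrary Z,
    fun x hx => ?_⟩
  have h : ∃ x' ∈ S, G x' = G x := ⟨x, hx, rfl⟩
  simp only [dif_pos h]
  rw [hG h.choose_spec.1 hx h.choose_spec.2]

lemma exists_slots [Fintype κ] [Fintype A] [Fintype Q] [Fintype B] [Nonempty B] (β : κ)
    (S : Set (A × (κ → A))) (ρ : ℕ) (h1 : ρ ≤ Fintype.card A)
    (h2 : Fintype.card A ≤ Fintype.card B + ρ)
    (h3 : Fintype.card Q * Fintype.card A + ρ ≤ Fintype.card B)
    (h4 : S.ncard + Fintype.card A ≤ (Fintype.card κ + 1) * Fintype.card B + ρ) :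
    ∃ G : (A × (κ → A)) ⊕ (A ⊕ (Q × A)) → Option (Option κ) × B,
      Set.InjOn G {x | ∀ y, x = Sum.inl y → y ∈ S} ∧ (∀ y ∈ S, (G (Sum.inl y)).1 ≠ none) ∧
      (∀ t, (G (Sum.inr (Sum.inl t))).1 = none ∨ (G (Sum.inr (Sum.inl t))).1 = some (some β)) ∧
      (∀ y, (G (Sum.inr (Sum.inr y))).1 = none) := by
  classical
  obtain ⟨Qs, -, hQs⟩ := Finset.exists_subset_card_eq (s := (Finset.univ : Finset A)) (n := ρ)
    (by simpa using h1)
  have hc2 : Fintype.card {t : A // t ∉ Qs} + ρ = Fintype.card A := by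
    rw [Fintype.card_subtype_compl]
    simp only [Fintype.card_coe, hQs]
    omega
  obtain ⟨G3⟩ : Nonempty ((Q × A) ⊕ Qs ↪ B) :=
    Function.Embedding.nonempty_of_card_le (by simpa [hQs] using h3)
  obtain ⟨G2⟩ : Nonempty ({t : A // t ∉ Qs} ↪ B) :=
    Function.Embedding.nonempty_of_card_le (by omega)
  let I : Finset (Option κ × B) := Finset.univ.image fun t => (some β, G2 t)
  have hI : I.card ≤ Fintype.card {t : A // t ∉ Qs} := Finset.card_image_le
  have hS : Fintype.card S = S.ncard := by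
    rw [Set.ncard_eq_toFinset_card', Set.toFinset_card]
  obtain ⟨G1⟩ : Nonempty (S ↪ {y : Option κ × B // y ∉ I}) :=
    Function.Embedding.nonempty_of_card_le (by
      rw [Fintype.card_subtype_compl, hS]
      simp only [Fintype.card_coe, Fintype.card_prod, Fintype.card_option]
      omega)
  refine ⟨fun x => match x with
    | Sum.inl y => if h : y ∈ S then (some (G1 ⟨y, h⟩).1.1, (G1 ⟨y, h⟩).1.2)
        else (none, Classical.arbitrary B)
    | Sum.inr (Sum.inl t) => if h : t ∈ Qs then (none, G3 (Sum.inr ⟨t, h⟩))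
        else (some (some β), G2 ⟨t, h⟩)
    | Sum.inr (Sum.inr y) => (none, G3 (Sum.inl y)), ?_, ?_, ?_, ?_⟩
  · have hne : ∀ (y : S) (t : {t : A // t ∉ Qs}), (G1 y).1 ≠ (some β, G2 t) := by
      intro y t h
      exact (G1 y).2 (Finset.mem_image.mpr ⟨t, Finset.mem_univ _, h.symm⟩)
    rintro (y | t | y) hx (y' | t' | y') hx' h
    · have hy := hx y rfl
      have hy' := hx' y' rfl
      simp only [dif_pos hy, dif_pos hy', Prod.mk.injEq, Option.some.injEq] at h
      have := G1.injective (Subtype.ext (Prod.ext h.1 h.2))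
      simpa using this
    · have hy := hx y rfl
      simp only [dif_pos hy] at h
      split_ifs at h with ht
      · simp at h
      · simp only [Prod.mk.injEq, Option.some.injEq] at h
        exact absurd (Prod.ext h.1 h.2) (hne _ _)
    · have hy := hx y rfl
      simp [dif_pos hy] at h
    · have hy := hx' y' rfl
      simp only [dif_pos hy] at h
      split_ifs at h with ht
      · simp at h
      · simp only [Prod.mk.injEq, Option.some.injEq] at h
        exact absurd (Prod.ext h.1.symm h.2.symm) (hne _ _)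
    · dsimp only at h
      split_ifs at h with ht ht' ht'
      · simpa using h
      · simp at h
      · simp at h
      · simpa using h
    · dsimp only at h
      split_ifs at h with ht
      · simp at h
      · simp at h
    · have hy := hx' y' rfl
      simp [dif_pos hy] at h
    · dsimp only at h
      split_ifs at h with ht
      · simp at h
      · simp at h
    · simpa using h
  · intro y hy
    simp [dif_pos hy]
  · intro t
    dsimp only
    split_ifs <;> simp
  · intro y
    rfl

namespace Layout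

variable [Fintype κ] [DecidableEq κ] [AddCommGroup A] [DecidableEq A] (L : Layout κ A Q) (t₁ : A)

/-- Shifted coordinates of a cell. -/
def zc (ω : Option (Option κ) → A) : κ → A := fun l => dg ω - ω (some (some l))

/-- The class of a cell. -/
def cls (ω : Option (Option κ) → A) :
    (Option (Option κ) × Option (Option κ)) ⊕ ((A × (κ → A)) ⊕ (A ⊕ (Q × A))) :=
  match L.lbl (zc ω) with
  | Sum.inl (Sum.inl f) => Sum.inl (famOf f)
  | Sum.inl (Sum.inr (Sum.inl q)) => Sum.inr (Sum.inr (Sum.inr (q, dg ω - ω none)))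
  | Sum.inl (Sum.inr (Sum.inr _)) => Sum.inr (Sum.inr (Sum.inl (dg ω - ω none)))
  | Sum.inr (Sum.inl π) =>
      if dg ω - ω (some none) = 0 then Sum.inl (some (some π.1), some (some π.2))
      else if dg ω - ω (some none) = t₁ then Sum.inl (some (some π.2), some (some π.1))
      else Sum.inr (Sum.inl (dg ω - ω (some none), zc ω))
  | Sum.inr (Sum.inr _) => Sum.inr (Sum.inl (dg ω - ω (some none), zc ω))

omit [DecidableEq κ] in
lemma cls_inr {ω : Option (Option κ) → A} {x} (h : L.cls t₁ ω = Sum.inr x) :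
    (x = Sum.inl (dg ω - ω (some none), zc ω) ∧ (dg ω - ω (some none), zc ω) ∈ L.left t₁) ∨
    (x = Sum.inr (Sum.inl (dg ω - ω none)) ∧ zc ω = L.pt (Sum.inr (Sum.inr ()))) ∨
    (∃ q, x = Sum.inr (Sum.inr (q, dg ω - ω none)) ∧ zc ω = L.pt (Sum.inr (Sum.inl q))) := by
  rcases hP : L.lbl (zc ω) with (f | q | u) | (π | u)
  · simp [cls, hP] at h
  · simp only [cls, hP, Sum.inr.injEq] at h
    exact Or.inr (Or.inr ⟨q, h.symm, L.hpt _ _ hP⟩)
  · simp only [cls, hP, Sum.inr.injEq] at h
    exact Or.inr (Or.inl ⟨h.symm, L.hpt _ _ hP⟩)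
  · simp only [cls, hP] at h
    split_ifs at h with h1 h2
    · simp only [Sum.inr.injEq] at h
      exact Or.inl ⟨h.symm, Or.inr ⟨⟨π, hP⟩, h1, h2⟩⟩
  · simp only [cls, hP, Sum.inr.injEq] at h
    exact Or.inl ⟨h.symm, Or.inl hP⟩

omit [DecidableEq κ] in
lemma cls_inl {ω : Option (Option κ) → A} {y} (h : L.cls t₁ ω = Sum.inl y) :
    (∃ f, y = famOf f ∧ zc ω = L.pt (Sum.inl f)) ∨
    (∃ π : κ × κ, (L.K π.1 π.2 = true ∧ L.K π.2 π.1 = false ∧
        ∀ l, l ≠ π.1 → zc ω l = L.base π l) ∧
      ((y = (some (some π.1), some (some π.2)) ∧ dg ω - ω (some none) = 0) ∨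
       (y = (some (some π.2), some (some π.1)) ∧ dg ω - ω (some none) = t₁))) := by
  rcases hP : L.lbl (zc ω) with (f | q | u) | (π | u)
  · simp only [cls, hP, Sum.inl.injEq] at h
    exact Or.inl ⟨f, h.symm, L.hpt _ _ hP⟩
  · simp [cls, hP] at h
  · simp [cls, hP] at h
  · simp only [cls, hP] at h
    split_ifs at h with h1 h2
    · simp only [Sum.inl.injEq] at h
      exact Or.inr ⟨π, L.hK _ _ hP, Or.inl ⟨h.symm, h1⟩⟩
    · simp only [Sum.inl.injEq] at h
      exact Or.inr ⟨π, L.hK _ _ hP, Or.inr ⟨h.symm, h2⟩⟩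
  · simp [cls, hP] at h

/-- The mode of a family. -/
def orb : Option (Option κ) → Option (Option κ) → Bool
  | some (some l), some (some l') => L.K l l'
  | some (some _), _ => false
  | _, _ => true

/-- The second moving coordinate of a line. -/
def lam : Option (Option κ) → Option (Option κ) → Option (Option κ)
  | none, _ => some none
  | some _, _ => none

/-- Degrees of the families of diagonal type. -/
def eDeg : Option (Option κ) → Option (Option κ) → A
  | some (some l), some (some l') => L.base (l', l) l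
  | some (some l), some none => L.pt (Sum.inl (Sum.inl (true, false, l))) l
  | some (some l), none => L.pt (Sum.inl (Sum.inl (true, true, l))) l
  | _, _ => 0

/-- Base points of the lines, in shifted coordinates. -/
def zBase : Option (Option κ) → Option (Option κ) → κ → A
  | some (some l), some (some l') => L.base (l, l')
  | some none, some (some l) => L.pt (Sum.inl (Sum.inl (false, false, l)))
  | none, some (some l) => L.pt (Sum.inl (Sum.inl (false, true, l)))
  | some none, none => L.pt (Sum.inl (Sum.inr false))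
  | none, some none => L.pt (Sum.inl (Sum.inr true))
  | _, _ => 0

/-- Base points of the lines. -/
def pBase (σ : A) (i j : Option (Option κ)) : Option (Option κ) → A
  | some (some l) => σ - L.zBase i j l
  | _ => σ

omit [DecidableEq A] in
lemma eq_of_zc_none {ω ω' : Option (Option κ) → A} (hd : dg ω = dg ω') (hz : zc ω = zc ω')
    (h : ω none = ω' none) : ω = ω' := by
  refine eq_of_dg hd (some none) ?_
  rintro (_ | _ | l) hl
  · exact h
  · exact absurd rfl hl
  · have := congrFun hz l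
    simp only [zc, hd] at this
    exact sub_right_injective this

omit [DecidableEq A] in
lemma eq_of_zc_some {ω ω' : Option (Option κ) → A} (hd : dg ω = dg ω') (hz : zc ω = zc ω')
    (h : ω (some none) = ω' (some none)) : ω = ω' := by
  refine eq_of_dg hd none ?_
  rintro (_ | _ | l) hl
  · exact absurd rfl hl
  · exact h
  · have := congrFun hz l
    simp only [zc, hd] at this
    exact sub_right_injective this

end Layout

theorem design_of_layout [Fintype κ] [DecidableEq κ] [AddCommGroup A] [DecidableEq A] [Fintype A]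
    [Fintype Q] [Fintype B] [Nonempty B] (L : Layout κ A Q) (β : κ) (t₁ : A) (ρ : ℕ)
    (h1 : ρ ≤ Fintype.card A) (h2 : Fintype.card A ≤ Fintype.card B + ρ)
    (h3 : Fintype.card Q * Fintype.card A + ρ ≤ Fintype.card B)
    (h4 : (L.left t₁).ncard + Fintype.card A ≤ (Fintype.card κ + 1) * Fintype.card B + ρ) :
    Nonempty (Design (Option (Option κ)) A B) := by
  obtain ⟨G, hinj, hG1, hG2, hG3⟩ := exists_slots β (L.left t₁) ρ h1 h2 h3 h4
  let f : (A × (κ → A)) ⊕ (A ⊕ (Q × A)) → A := fun x => match x, (G x).1 with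
    | Sum.inl y, some (some l) => y.2 l
    | Sum.inl y, _ => y.1
    | Sum.inr (Sum.inl t), none => t
    | Sum.inr (Sum.inl _), _ => L.pt (Sum.inr (Sum.inr ())) β
    | Sum.inr (Sum.inr y), _ => y.2
  obtain ⟨d, hd⟩ := exists_left_inverse_on hinj f
  let lab : (Option (Option κ) → A) → Option (Option κ) × (B ⊕ Option (Option κ)) := fun ω =>
    match L.cls t₁ ω with
    | Sum.inl y => (y.1, Sum.inr y.2)
    | Sum.inr x => ((G x).1, Sum.inl (G x).2)
  have hfree : ∀ ω i b, lab ω = (i, Sum.inl b) → ∃ x, L.cls t₁ ω = Sum.inr x ∧ G x = (i, b) := by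
    intro ω i b h
    rcases hc : L.cls t₁ ω with y | x
    · simp [lab, hc] at h
    · simp only [lab, hc, Prod.mk.injEq, Sum.inl.injEq] at h
      exact ⟨x, rfl, Prod.ext h.1 h.2⟩
  have hfam : ∀ ω i j, lab ω = (i, Sum.inr j) → L.cls t₁ ω = Sum.inl (i, j) := by
    intro ω i j h
    rcases hc : L.cls t₁ ω with y | x
    · simp only [lab, hc, Prod.mk.injEq, Sum.inr.injEq] at h
      rw [← h.1, ← h.2]
    · simp [lab, hc] at h
  have hS : ∀ ω x, L.cls t₁ ω = Sum.inr x → x ∈ {x | ∀ y, x = Sum.inl y → y ∈ L.left t₁} := by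
    intro ω x h y hy
    rcases L.cls_inr t₁ h with ⟨h5, h6⟩ | ⟨h5, -⟩ | ⟨q, h5, -⟩
    · rw [h5, Sum.inl.injEq] at hy
      rw [← hy]
      exact h6
    · simp [h5] at hy
    · simp [h5] at hy
  refine ⟨⟨fun i b => d (i, b), L.orb, L.eDeg, L.pBase, Layout.lam, lab, ?_, ?_, ?_, ?_, ?_, ?_,
    ?_⟩⟩
  · intro ω i b h
    obtain ⟨x, hx, hG⟩ := hfree ω i b h
    rw [← hG, hd x (hS ω x hx)]
    have hi : (G x).1 = i := by rw [hG]
    rcases L.cls_inr t₁ hx with ⟨h5, h6⟩ | ⟨h5, h6⟩ | ⟨q, h5, h6⟩
    · subst h5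
      have := hG1 _ h6
      rw [hi] at this
      rcases i with _ | _ | l
      · exact absurd rfl this
      · simp only [f, hi]
      · simp only [f, hi, Layout.zc]
    · subst h5
      rcases hG2 (dg ω - ω none) with h7 | h7
      · rw [hi] at h7
        subst h7
        simp only [f, hi]
      · rw [hi] at h7
        subst h7
        simp only [f, hi, ← h6, Layout.zc]
    · subst h5
      have h7 := hG3 (q, dg ω - ω none)
      rw [hi] at h7
      subst h7
      simp only [f]
  · intro ω ω' i b h h' hdg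
    obtain ⟨x, hx, hG⟩ := hfree ω i b h
    obtain ⟨x', hx', hG'⟩ := hfree ω' i b h'
    have hxx : x = x' := hinj (hS ω x hx) (hS ω' x' hx') (hG.trans hG'.symm)
    subst hxx
    rcases L.cls_inr t₁ hx with ⟨h5, h6⟩ | ⟨h5, h6⟩ | ⟨q, h5, h6⟩ <;>
    rcases L.cls_inr t₁ hx' with ⟨h7, h8⟩ | ⟨h7, h8⟩ | ⟨q', h7, h8⟩ <;>
    rw [h5] at h7 <;>
    simp only [Sum.inl.injEq, Sum.inr.injEq, Prod.mk.injEq, reduceCtorEq, hdg,
      sub_right_inj] at h7
    · exact Layout.eq_of_zc_some hdg h7.2 h7.1
    · exact Layout.eq_of_zc_none hdg (h6.trans h8.symm) h7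
    · exact Layout.eq_of_zc_none hdg (by rw [h6, h8, h7.1]) h7.2
  · intro ω i j h
    rcases L.cls_inl t₁ (hfam ω i j h) with ⟨g, hg, -⟩ | ⟨π, ⟨hK1, hK2, -⟩, ⟨hy, -⟩ | ⟨hy, -⟩⟩
    · rcases g with ⟨_ | _, _ | _, l⟩ | _ | _ <;> simp only [famOf, Prod.mk.injEq] at hg <;>
        simp [hg.1, hg.2]
    · simp only [Prod.mk.injEq] at hy
      rw [hy.1, hy.2]
      intro h9
      simp only [Option.some.injEq] at h9
      rw [h9] at hK1 hK2
      simp [hK1] at hK2
    · simp only [Prod.mk.injEq] at hy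
      rw [hy.1, hy.2]
      intro h9
      simp only [Option.some.injEq] at h9
      rw [h9] at hK1 hK2
      simp [hK1] at hK2
  · intro ω i j h ho
    rcases L.cls_inl t₁ (hfam ω i j h) with ⟨g, hg, hz⟩ | ⟨π, ⟨hK1, hK2, hz⟩, ⟨hy, -⟩ | ⟨hy, -⟩⟩
    · rcases g with ⟨_ | _, _ | _, l⟩ | _ | _ <;> simp only [famOf, Prod.mk.injEq] at hg <;>
        obtain ⟨rfl, rfl⟩ := hg <;> simp only [Layout.orb, reduceCtorEq] at ho
      · simp only [Layout.eDeg, ← hz, Layout.zc]
      · simp only [Layout.eDeg, ← hz, Layout.zc]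
    · simp only [Prod.mk.injEq] at hy
      obtain ⟨rfl, rfl⟩ := hy
      simp [Layout.orb, hK1] at ho
    · simp only [Prod.mk.injEq] at hy
      obtain ⟨rfl, rfl⟩ := hy
      simp only [Layout.eDeg]
      rw [← hz π.2]
      · rfl
      · intro h9
        rw [h9] at hK1 hK2
        simp [hK1] at hK2
  · intro ω ω' i j h h' ho hdg hj
    rcases L.cls_inl t₁ (hfam ω i j h) with ⟨g, hg, hz⟩ | ⟨π, ⟨hK1, hK2, hz⟩, ⟨hy, ht⟩ | ⟨hy, ht⟩⟩
    · rcases L.cls_inl t₁ (hfam ω' i j h') with
        ⟨g', hg', hz'⟩ | ⟨π', -, ⟨hy', -⟩ | ⟨hy', -⟩⟩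
      · rcases g with ⟨_ | _, _ | _, l⟩ | _ | _ <;> simp only [famOf, Prod.mk.injEq] at hg <;>
          obtain ⟨rfl, rfl⟩ := hg <;> simp only [Layout.orb, reduceCtorEq] at ho <;>
          rcases g' with ⟨_ | _, _ | _, l'⟩ | _ | _ <;>
          simp only [famOf, Prod.mk.injEq, reduceCtorEq, Option.some.injEq, and_false,
            and_true] at hg'
        · exact Layout.eq_of_zc_some hdg (by rw [hz, hz', hg']) hj
        · exact Layout.eq_of_zc_none hdg (by rw [hz, hz', hg']) hj
      · rw [hy'] at hg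
        rcases g with ⟨_ | _, _ | _, l⟩ | _ | _ <;> simp [famOf] at hg
      · rw [hy'] at hg
        rcases g with ⟨_ | _, _ | _, l⟩ | _ | _ <;> simp [famOf] at hg
    · simp only [Prod.mk.injEq] at hy
      obtain ⟨rfl, rfl⟩ := hy
      simp [Layout.orb, hK1] at ho
    · rcases L.cls_inl t₁ (hfam ω' i j h') with
        ⟨g', hg', hz'⟩ | ⟨π', ⟨hK1', hK2', hz'⟩, ⟨hy', ht'⟩ | ⟨hy', ht'⟩⟩
      · rw [hy] at hg'
        rcases g' with ⟨_ | _, _ | _, l⟩ | _ | _ <;> simp [famOf] at hg'
      · simp only [Prod.mk.injEq] at hy'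
        obtain ⟨rfl, rfl⟩ := hy'
        simp [Layout.orb, hK1'] at ho
      · rw [hy] at hy'
        simp only [Prod.mk.injEq, Option.some.injEq] at hy hy'
        have hπ : π = π' := Prod.ext hy'.2 hy'.1
        subst hπ
        refine Layout.eq_of_zc_some hdg ?_ ?_
        · funext l
          by_cases hl : l = π.1
          · rw [hy.2] at hj
            simp only [Layout.zc, hl, hj, hdg]
          · rw [hz l hl, hz' l hl]
        · rw [hdg, ← ht'] at ht
          exact sub_right_injective ht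
  · intro ω i j h ho l hl1 hl2
    rcases L.cls_inl t₁ (hfam ω i j h) with ⟨g, hg, hz⟩ | ⟨π, ⟨hK1, hK2, hz⟩, ⟨hy, ht⟩ | ⟨hy, ht⟩⟩
    · rcases g with ⟨_ | _, _ | _, l'⟩ | _ | _ <;> simp only [famOf, Prod.mk.injEq] at hg <;>
        obtain ⟨rfl, rfl⟩ := hg <;> simp only [Layout.orb, reduceCtorEq] at ho <;>
        rcases l with _ | _ | l <;> simp only [Layout.lam, ne_eq, not_true_eq_false] at hl1 hl2 <;>
        simp only [Layout.pBase, Layout.zBase, ← hz, Layout.zc, sub_sub_cancel]
    · simp only [Prod.mk.injEq] at hy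
      obtain ⟨rfl, rfl⟩ := hy
      rcases l with _ | _ | l
      · simp [Layout.lam] at hl2
      · simp only [Layout.pBase]
        exact (sub_eq_zero.mp ht).symm
      · simp only [Layout.pBase, Layout.zBase]
        rw [← hz l (by simpa using hl1)]
        simp [Layout.zc]
    · simp only [Prod.mk.injEq] at hy
      obtain ⟨rfl, rfl⟩ := hy
      simp [Layout.orb, hK2] at ho
  · rintro (_ | _ | i) j <;> simp [Layout.lam]

end Pool.Agent.P.MP_c64be1_ag
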