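import Pool.Agent.P.MP_c64be1_ag.Layout

/-! Existence of layouts. -/

namespace Pool.Agent.P.MP_c64be1_ag

open Function

variable {κ A Q : Type} [Fintype κ] [DecidableEq κ] [Fintype A] [DecidableEq A] [Fintype Q]

omit [DecidableEq A] in
lemma layout_small [Zero A] (h : Fintype.card (κ → A) ≤ Fintype.card (FamA κ ⊕ Q)) :
    ∃ L : Layout κ A Q, ∀ t₁, L.left t₁ = ∅ := by
  obtain ⟨f⟩ : Nonempty ((κ → A) ↪ FamA κ ⊕ Q) := Function.Embedding.nonempty_of_card_le h
  have hinj : Set.InjOn (fun z => (Sum.map id Sum.inl (f z) : Res κ Q)) Set.univ := by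
    intro z _ z' _ hz
    exact f.injective (Sum.map_injective.mpr ⟨injective_id, Sum.inl_injective⟩ hz)
  obtain ⟨pt, hpt⟩ := exists_left_inverse_on hinj id
  refine ⟨⟨fun z => Sum.inl (Sum.map id Sum.inl (f z)), pt, 0, fun _ _ => false, ?_, ?_⟩, ?_⟩
  · intro z r hr
    simp only [Sum.inl.injEq] at hr
    rw [← hr]
    exact (hpt z trivial).symm
  · intro z π hπ
    simp at hπ
  · intro t₁
    ext x
    simp [Layout.left]

/-- The line through `p` parallel to the axis `i`. -/
def line (p : κ → A) (i : κ) : Finset (κ → A) := Finset.univ.image (update p i)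

lemma mem_line {p z : κ → A} {i : κ} : z ∈ line p i ↔ ∀ l, l ≠ i → z l = p l := by
  simp only [line, Finset.mem_image, Finset.mem_univ, true_and]
  constructor
  · rintro ⟨t, rfl⟩ l hl
    rw [update_of_ne hl]
  · intro h
    refine ⟨z i, funext fun l => ?_⟩
    by_cases hl : l = i
    · subst hl
      simp
    · rw [update_of_ne hl, h l hl]

lemma card_line (p : κ → A) (i : κ) : (line p i).card = Fintype.card A := by
  rw [line, Finset.card_image_of_injective _ (update_injective p i), Finset.card_univ]

lemma exists_line_disjoint (U : Finset (κ → A)) (i : κ)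
    (h : U.card * Fintype.card A < Fintype.card (κ → A)) : ∃ p, Disjoint (line p i) U := by
  have h1 : (U.biUnion fun u => line u i).card < (Finset.univ : Finset (κ → A)).card := by
    refine lt_of_le_of_lt Finset.card_biUnion_le ?_
    simpa [card_line] using h
  obtain ⟨p, -, hp⟩ := Finset.exists_mem_notMem_of_card_lt_card h1
  refine ⟨p, Finset.disjoint_left.mpr fun u hu hU => hp ?_⟩
  exact Finset.mem_biUnion.mpr ⟨u, hU, mem_line.mpr fun l hl => (mem_line.mp hu l hl).symm⟩

lemma exists_lines [Zero A] (s : Finset (κ × κ))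
    (h : (s.card - 1) * Fintype.card A * Fintype.card A < Fintype.card (κ → A)) :
    ∃ base : κ × κ → κ → A, ∀ π ∈ s, ∀ π' ∈ s, π ≠ π' →
      Disjoint (line (base π) π.1) (line (base π') π'.1) := by
  induction s using Finset.induction_on with
  | empty => exact ⟨0, by simp⟩
  | insert π₀ s hπ₀ ih =>
    rw [Finset.card_insert_of_notMem hπ₀, Nat.add_sub_cancel] at h
    obtain ⟨base, hb⟩ := ih (lt_of_le_of_lt (by gcongr; omega) h)
    obtain ⟨p, hp⟩ := exists_line_disjoint (s.biUnion fun π => line (base π) π.1) π₀.1 (by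
      refine lt_of_le_of_lt ?_ h
      gcongr
      refine Finset.card_biUnion_le.trans ?_
      simp [card_line])
    have hp' : ∀ π ∈ s, Disjoint (line p π₀.1) (line (base π) π.1) := fun π hπ =>
      hp.mono_right (Finset.subset_biUnion_of_mem (fun π => line (base π) π.1) hπ)
    have hne : ∀ π ∈ s, π ≠ π₀ := fun π hπ h0 => hπ₀ (h0 ▸ hπ)
    refine ⟨update base π₀ p, fun π hπ π' hπ' hππ => ?_⟩
    rcases Finset.mem_insert.mp hπ with h1 | h1 <;> rcases Finset.mem_insert.mp hπ' with h2 | h2
    · exact absurd (h1.trans h2.symm) hππ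
    · rw [h1, update_self, update_of_ne (hne _ h2)]
      exact hp' _ h2
    · rw [h2, update_self, update_of_ne (hne _ h1)]
      exact (hp' _ h1).symm
    · rw [update_of_ne (hne _ h1), update_of_ne (hne _ h2)]
      exact hb _ h1 _ h2 hππ

lemma layout_big [Zero A] (KS : Finset (κ × κ)) (hKS : ∀ π ∈ KS, (π.2, π.1) ∉ KS) {t₁ : A}
    (ht : t₁ ≠ 0)
    (hg : (KS.card - 1) * Fintype.card A * Fintype.card A < Fintype.card (κ → A))
    (hs : KS.card * Fintype.card A + Fintype.card (Res κ Q) ≤ Fintype.card (κ → A)) :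
    ∃ L : Layout κ A Q, (L.left t₁).ncard + Fintype.card A * Fintype.card (Res κ Q) +
      2 * (KS.card * Fintype.card A) ≤ Fintype.card A * Fintype.card (κ → A) := by
  classical
  obtain ⟨base, hb⟩ := exists_lines KS hg
  let U : Finset (κ → A) := KS.biUnion fun π => line (base π) π.1
  have hU : U.card = KS.card * Fintype.card A := by
    rw [Finset.card_biUnion hb]
    simp [card_line]
  obtain ⟨g⟩ : Nonempty (Res κ Q ↪ {z : κ → A // z ∉ U}) :=
    Function.Embedding.nonempty_of_card_le (by
      rw [Fintype.card_subtype_compl]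
      simp only [Fintype.card_coe, hU]
      omega)
  let L : Layout κ A Q := ⟨fun z => if h : ∃ r, (g r).1 = z then Sum.inl h.choose
      else if h : ∃ π ∈ KS, z ∈ line (base π) π.1 then Sum.inr (Sum.inl h.choose)
      else Sum.inr (Sum.inr ()), fun r => (g r).1, base, fun i j => decide ((i, j) ∈ KS), by
    intro z r hr
    split_ifs at hr with h1 h2
    simp only [Sum.inl.injEq] at hr
    rw [← hr, h1.choose_spec], by
    intro z π hπ
    split_ifs at hπ with h1 h2
    · simp only [Sum.inr.injEq, Sum.inl.injEq] at hπ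
      have := h2.choose_spec
      rw [hπ] at this
      exact ⟨by simpa using this.1, by simpa using hKS π this.1, mem_line.mp this.2⟩
    · simp at hπ⟩
  refine ⟨L, ?_⟩
  let W₁ : Finset (A × (κ → A)) := Finset.univ ×ˢ Finset.univ.image fun r => (g r).1
  let W₂ : Finset (A × (κ → A)) := ({0, t₁} : Finset A) ×ˢ U
  have hW₁ : W₁.card = Fintype.card A * Fintype.card (Res κ Q) := by
    rw [Finset.card_product, Finset.card_image_of_injective _
      (f := fun r => (g r).1) (Subtype.val_injective.comp g.injective)]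
    simp
  have hW₂ : W₂.card = 2 * (KS.card * Fintype.card A) := by
    rw [Finset.card_product, hU, Finset.card_pair ht.symm]
  have hdisj : Disjoint W₁ W₂ := by
    refine Finset.disjoint_left.mpr fun x h1 h2 => ?_
    simp only [W₁, W₂, Finset.mem_product, Finset.mem_image, Finset.mem_univ, true_and] at h1 h2
    obtain ⟨r, hr⟩ := h1
    exact (g r).2 (hr ▸ h2.2)
  have hsub : L.left t₁ ⊆ ((W₁ ∪ W₂)ᶜ : Finset _) := by
    intro x hx
    simp only [Finset.coe_compl, Set.mem_compl_iff, Finset.mem_coe, Finset.mem_union, W₁, W₂,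
      Finset.mem_product, Finset.mem_image, Finset.mem_univ, true_and, Finset.mem_insert,
      Finset.mem_singleton]
    simp only [Layout.left, Set.mem_ofPred_eq, L] at hx
    rintro (h1 | ⟨h1, h2⟩)
    · simp only [dif_pos h1] at hx
      simp at hx
    · have h3 : ¬ ∃ r, (g r).1 = x.2 := fun ⟨r, hr⟩ => (g r).2 (hr ▸ h2)
      have h4 : ∃ π ∈ KS, x.2 ∈ line (base π) π.1 := Finset.mem_biUnion.mp h2
      simp only [dif_neg h3, dif_pos h4] at hx
      rcases hx with hx | ⟨-, h5, h6⟩
      · simp at hx
      · exact h1.elim h5 h6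
  have h1 := Set.ncard_le_ncard hsub (Finset.finite_toSet _)
  rw [Set.ncard_coe_finset, Finset.card_compl, Finset.card_union_of_disjoint hdisj, hW₁, hW₂,
    Fintype.card_prod] at h1
  have h2 : (W₁ ∪ W₂).card ≤ Fintype.card (A × (κ → A)) := Finset.card_le_univ _
  rw [Finset.card_union_of_disjoint hdisj, hW₁, hW₂, Fintype.card_prod] at h2
  omega

end Pool.Agent.P.MP_c64be1_ag
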