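import Pool.Agent.P.MP_c64be1_ag.LayoutEx
import Pool.Agent.P.MP_c64be1_ag.Arith

/-! Assembly of the upper and lower bounds. -/

namespace Pool.Agent.P.MP_c64be1_ag

open MvPolynomial

theorem exists_design (k c m : ℕ) [NeZero c] (hk : 1 ≤ k) (hc : 2 ≤ c) (hm : c ≤ m)
    (h : c * c ^ k ≤ (k + 2) * (m + (k + 1) * c)) :
    Nonempty (Design (Option (Option (Fin k))) (ZMod c) (Fin m)) := by
  have : Nonempty (Fin m) := ⟨⟨0, by omega⟩⟩
  have : Fact (1 < c) := ⟨by omega⟩
  have ht : (1 : ZMod c) ≠ 0 := one_ne_zero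
  have hcA : Fintype.card (ZMod c) = c := ZMod.card c
  have hG : Fintype.card (Fin k → ZMod c) = c ^ k := by simp
  have hRes : ∀ q, Fintype.card (Res (Fin k) (Fin q)) = 4 * k + 3 + q := by
    intro q
    simp only [Fintype.card_sum, Fintype.card_prod, Fintype.card_bool, Fintype.card_fin,
      Fintype.card_unit]
    omega
  let β : Fin k := ⟨0, by omega⟩
  by_cases h1 : c ^ k ≤ 4 * k + 3
  · obtain ⟨L, hL⟩ := layout_small (κ := Fin k) (A := ZMod c) (Q := Fin 1) (by
      rw [hG]
      simp only [Fintype.card_sum, Fintype.card_prod, Fintype.card_bool, Fintype.card_fin]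
      omega)
    refine design_of_layout L β 1 0 (by omega) (by simpa using hm) (by simpa using hm) ?_
    rw [hL]
    simp only [Set.ncard_empty, hcA, Fintype.card_fin]
    nlinarith
  by_cases h2 : c ^ k ≤ 5 * k + 4
  · obtain ⟨L, hL⟩ := layout_big (κ := Fin k) (A := ZMod c) (Q := Fin 1) ∅ (by simp) ht
      (by rw [hG]; simp; omega) (by rw [hG, hRes]; simp; omega)
    refine design_of_layout L β 1 0 (by omega) (by simpa using hm) (by simpa using hm) ?_
    rw [hG, hRes, hcA] at hL
    simp only [hcA, Fintype.card_fin]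
    have h3 : c * c ^ k ≤ c * (5 * k + 4) := by gcongr
    have h4 : (k + 1) * c ≤ (k + 1) * m := by gcongr
    nlinarith
  by_cases h3 : k = 5 ∧ c = 2
  · obtain ⟨rfl, rfl⟩ := h3
    obtain ⟨L, hL⟩ := layout_big (κ := Fin 5) (A := ZMod 2) (Q := Fin 1) {(0, 1), (0, 2)}
      (by decide) ht (by rw [hG, hcA]; decide) (by rw [hG, hRes, hcA]; decide)
    refine design_of_layout L β 1 0 (by omega) (by simpa using hm) (by simpa using hm) ?_
    have h5 : ({(0, 1), (0, 2)} : Finset (Fin 5 × Fin 5)).card = 2 := by decide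
    rw [hG, hRes, hcA, h5] at hL
    simp only [hcA, Fintype.card_fin]
    omega
  have hex : ∃ m, c ≤ m ∧ c * c ^ k ≤ (k + 2) * (m + (k + 1) * c) := ⟨m, hm, h⟩
  classical
  obtain ⟨hm1, hm2⟩ := Nat.find_spec hex
  have hm3 : Nat.find hex ≤ m := Nat.find_min' hex ⟨hm, h⟩
  have hm4 : ∀ t, t < Nat.find hex → c ≤ t → (k + 2) * (t + (k + 1) * c) < c * c ^ k := by
    intro t ht1 ht2
    have := Nat.find_min hex ht1
    omega
  generalize Nat.find hex = m' at hm1 hm2 hm3 hm4
  let KS : Finset (Fin k × Fin k) := Finset.univ.filter fun x => x.1 < x.2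
  have hKS : 2 * KS.card + k = k * k := by
    rw [Fintype.card_product_filter_lt, Fintype.card_fin, two_mul_choose_two_add]
  obtain ⟨i1, i3⟩ := ineq13 hk hc hKS (by omega) h3
  have hdiv : m' / c * c + m' % c = m' := Nat.div_add_mod' m' c
  have hmod : m' % c < c := Nat.mod_lt _ (by omega)
  have hs : KS.card * c + (4 * k + 3 + m' / c) ≤ c ^ k := by
    rcases Nat.eq_or_lt_of_le hm1 with h4 | h4
    · rw [← h4, Nat.div_self (by omega)]
      omega
    · have h5 := hm4 c h4 le_rfl
      have h6 : (k + 2) * (k + 2) < c ^ k := by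
        by_contra h7
        have : c * c ^ k ≤ c * ((k + 2) * (k + 2)) := by gcongr; omega
        nlinarith
      have i2 := ineq2 hk hc hKS h6
      obtain ⟨t, rfl⟩ : ∃ t, m' = t + 1 := ⟨m' - 1, by omega⟩
      have h7 := hm4 t (by omega) (by omega)
      generalize (t + 1) / c = q at hdiv ⊢
      generalize (t + 1) % c = ρ at hdiv hmod
      have h8 : c * ((k + 2) * (q + k + 1)) < c * (c ^ k + (k + 2)) := by nlinarith
      have h9 : (k + 2) * (q + k + 1) < c ^ k + (k + 2) := lt_of_mul_lt_mul_left h8 (by omega)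
      have h10 : (k + 2) * (KS.card * c + (4 * k + 3 + q)) ≤ (k + 2) * c ^ k := by nlinarith
      exact le_of_mul_le_mul_left h10 (by omega)
  obtain ⟨L, hL⟩ := layout_big (κ := Fin k) (A := ZMod c) (Q := Fin (m' / c)) KS (by
      intro π hπ
      simp only [KS, Finset.mem_filter, Finset.mem_univ, true_and, not_lt] at hπ ⊢
      exact hπ.le) ht (by rw [hG, hcA]; exact i3) (by rw [hG, hRes, hcA]; exact hs)
  refine design_of_layout L β 1 (m' % c) (by omega) (by simp; omega) (by simp; omega) ?_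
  rw [hG, hRes, hcA] at hL
  simp only [hcA, Fintype.card_fin]
  generalize (L.left 1).ncard = z at hL ⊢
  clear hs L
  generalize m' / c = q at hdiv hL
  generalize m' % c = ρ at hdiv hL ⊢
  have h4 : (k + 1) * m' ≤ (k + 1) * m := by gcongr
  have h5 : 2 * (KS.card * c) + k * c = k * k * c := by rw [← hKS]; ring
  nlinarith

section blocks

variable {ι γ B : Type} [Fintype ι] [DecidableEq ι] [DecidableEq γ] [DecidableEq B]

/-- The exponent of a transversal monomial. -/
noncomputable def expo (B : Type) (a : ι → γ) : ((ι × γ) ⊕ B) →₀ ℕ :=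
  ∑ l, Finsupp.single (Sum.inl (l, a l) : (ι × γ) ⊕ B) 1

lemma expo_inl (a : ι → γ) (j : ι) (x : γ) :
    expo B a (Sum.inl (j, x)) = if a j = x then 1 else 0 := by
  simp only [expo, Finsupp.coe_finsetSum, Finset.sum_apply, Finsupp.single_apply]
  rw [Finset.sum_eq_single j]
  · simp
  · intro l _ hl
    simp [hl]
  · simp

omit [DecidableEq ι] [DecidableEq γ] [DecidableEq B] in
lemma degree_expo (a : ι → γ) : (expo B a).degree = Fintype.card ι := by
  simp [expo, map_sum]

lemma expo_injective : Function.Injective (expo B : (ι → γ) → _) := by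
  intro a b h
  funext j
  have := DFunLike.congr_fun h (Sum.inl (j, a j))
  rw [expo_inl, expo_inl, if_pos rfl] at this
  by_contra hne
  rw [if_neg (Ne.symm hne)] at this
  omega

lemma expo_le {m : ((ι × γ) ⊕ B) →₀ ℕ} (a : ι → γ) (ha : ∀ l, m (Sum.inl (l, a l)) ≠ 0) :
    expo B a ≤ m := by
  rintro (⟨j, x⟩ | b)
  · rw [expo_inl]
    split_ifs with h
    · have := ha j
      rw [h] at this
      omega
    · omega
  · simp [expo]

variable [Fintype γ] [Fintype B]

theorem fills_of_lt {k r : ℕ} (hr : r + Fintype.card γ = Fintype.card ((ι × γ) ⊕ B))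
    (hk : k < Fintype.card ι) : SecantFills ((ι × γ) ⊕ B) k r (Fintype.card ι) := by
  refine secantFills_of_tangent rfl (by omega) (fun l => spanX (off γ B l)) (fun l => spanX_le _)
    (fun l => (finrank_spanX_le _).trans (by have := card_off (γ := γ) (B := B) l; omega))
    (fun _ => 0) (fun l => Submodule.zero_mem _) fun τ hτ => ?_
  change τ ∈ tang (fun l => spanX (off γ B l)) k (fun _ => 0)
  rw [τ.as_sum]
  refine Submodule.sum_mem _ fun m hm => ?_
  have hdeg : m.degree = k := by
    by_contra h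
    exact (mem_support_iff.mp hm) (hτ.coeff_eq_zero h)
  by_cases h : ∀ l, ∃ x, m (Sum.inl (l, x)) ≠ 0
  · choose a ha using h
    have := Finsupp.degree_mono (expo_le a ha)
    rw [degree_expo] at this
    omega
  · push Not at h
    obtain ⟨l, hl⟩ := h
    refine mem_tang_of_mem_pow _ l ?_
    rw [← hdeg]
    refine monomial_mem_spanX_pow _ _ fun v hv x hx => hv ?_
    rw [hx, hl]

theorem not_fills_eq {r : ℕ} (hr : r + Fintype.card γ = Fintype.card ((ι × γ) ⊕ B))
    (h : Fintype.card ι * (Fintype.card γ * r) < Fintype.card γ ^ Fintype.card ι) :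
    ¬ SecantFills ((ι × γ) ⊕ B) (Fintype.card ι) r (Fintype.card ι) := by
  refine not_secantFills hr (Finset.univ.image (expo B)) ?_ ?_ ?_
  · intro m hm
    obtain ⟨a, -, rfl⟩ := Finset.mem_image.mp hm
    exact degree_expo a
  · intro m hm i
    obtain ⟨a, -, rfl⟩ := Finset.mem_image.mp hm
    exact ⟨a i, by simp [expo_inl]⟩
  · rw [Finset.card_image_of_injective _ expo_injective]
    simpa using h

theorem not_fills_pred {r : ℕ} (j₀ : ι) {x₀ x₁ : γ} (hx : x₀ ≠ x₁)
    (hr : r + Fintype.card γ = Fintype.card ((ι × γ) ⊕ B))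
    (h : Fintype.card ι * (Fintype.card γ * r) <
      Fintype.card γ ^ Fintype.card ι * (Fintype.card B + Fintype.card ι) + 1) :
    ¬ SecantFills ((ι × γ) ⊕ B) (Fintype.card ι + 1) r (Fintype.card ι) := by
  let v : (ι → γ) × (B ⊕ ι) → (ι × γ) ⊕ B := fun p =>
    match p.2 with
    | Sum.inl b => Sum.inr b
    | Sum.inr j => Sum.inl (j, p.1 j)
  let f : (ι → γ) × (B ⊕ ι) → (((ι × γ) ⊕ B) →₀ ℕ) := fun p => expo B p.1 + Finsupp.single (v p) 1
  have hf : ∀ p j x, f p (Sum.inl (j, x)) ≠ 0 → p.1 j = x := by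
    rintro ⟨a, b | l⟩ j x h0
    · by_contra hne
      simp [f, v, expo_inl, hne] at h0
    · by_contra hne
      simp only [f, v, Finsupp.add_apply, expo_inl, hne, if_false, zero_add,
        Finsupp.single_apply_ne_zero, Sum.inl.injEq, Prod.mk.injEq] at h0
      exact hne (by rw [h0.1.1, h0.1.2])
  have hf2 : ∀ p j, f p (Sum.inl (j, p.1 j)) ≠ 0 := by
    intro p j
    simp [f, expo_inl]
  have hinj : Function.Injective f := by
    rintro ⟨a, s⟩ ⟨a', s'⟩ hp
    have ha : a = a' := by
      funext j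
      have := hf2 (a, s) j
      rw [hp] at this
      exact (hf _ _ _ this).symm
    subst ha
    simp only [f, add_right_inj] at hp
    have hv := Finsupp.single_left_injective one_ne_zero hp
    rcases s with b | l <;> rcases s' with b' | l' <;> simp only [v] at hv
    · simpa using hv
    · simp at hv
    · simp at hv
    · simp only [Sum.inl.injEq, Prod.mk.injEq] at hv
      rw [hv.1]
  let m₀ : ((ι × γ) ⊕ B) →₀ ℕ := expo B (fun _ => x₀) + Finsupp.single (Sum.inl (j₀, x₁)) 1
  have hm₀ : m₀ ∉ Finset.univ.image f := by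
    intro h0
    obtain ⟨p, -, hp⟩ := Finset.mem_image.mp h0
    have h1 := hf p j₀ x₀ (by rw [hp]; simp [m₀, expo_inl])
    have h2 := hf p j₀ x₁ (by rw [hp]; simp [m₀, expo_inl])
    exact hx (h1.symm.trans h2)
  refine not_secantFills hr (insert m₀ (Finset.univ.image f)) ?_ ?_ ?_
  · intro m hm
    rcases Finset.mem_insert.mp hm with rfl | hm
    · simp [m₀, degree_expo]
    · obtain ⟨p, -, rfl⟩ := Finset.mem_image.mp hm
      simp [f, degree_expo]
  · intro m hm i
    rcases Finset.mem_insert.mp hm with rfl | hm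
    · exact ⟨x₀, by simp [m₀, expo_inl]⟩
    · obtain ⟨p, -, rfl⟩ := Finset.mem_image.mp hm
      exact ⟨p.1 i, hf2 p i⟩
  · rw [Finset.card_insert_of_notMem hm₀, Finset.card_image_of_injective _ hinj]
    simpa using h

end blocks

theorem fills_iff_of_card {σ : Type} [Fintype σ] {n k r s : ℕ} (h : Fintype.card σ = n) :
    SecantFills σ k r s ↔ SecantFills (Fin n) k r s :=
  ⟨secantFills_rename (Fintype.equivFinOfCardEq h),
    secantFills_rename (Fintype.equivFinOfCardEq h).symm⟩

theorem fills_succ {n k r : ℕ} (hr : r ≤ n) (hn : (k + 1) * (n - r) ≤ n) :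
    SecantFills (Fin n) k r (k + 1) := by
  have hc : Fintype.card ((Fin (k + 1) × Fin (n - r)) ⊕ Fin (n - (k + 1) * (n - r))) = n := by
    simp only [Fintype.card_sum, Fintype.card_prod, Fintype.card_fin]
    omega
  have := fills_of_lt (ι := Fin (k + 1)) (γ := Fin (n - r)) (B := Fin (n - (k + 1) * (n - r)))
    (k := k) (r := r) (by rw [hc]; simp; omega) (by simp)
  rw [Fintype.card_fin] at this
  exact (fills_iff_of_card hc).mp this

theorem fills_self {n k r : ℕ} (hk : 3 ≤ k) (hc : r + 2 ≤ n) (hn : (k + 1) * (n - r) ≤ n)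
    (h : (n - r) ^ (k - 1) ≤ k * r) : SecantFills (Fin n) k r k := by
  obtain ⟨c, rfl⟩ : ∃ c, n = r + c := ⟨n - r, by omega⟩
  obtain ⟨j, rfl⟩ : ∃ j, k = j + 2 := ⟨k - 2, by omega⟩
  rw [Nat.add_sub_cancel_left] at hn h
  have : NeZero c := ⟨by omega⟩
  obtain ⟨m, hm⟩ : ∃ m, r = m + (j + 1) * c := ⟨r - (j + 1) * c, by
    have : (j + 1) * c ≤ r := by nlinarith
    omega⟩
  obtain ⟨D⟩ := exists_design j c m (by omega) (by omega) (by nlinarith) (by
    rw [← hm, ← pow_succ']
    exact h)
  have hcard : Fintype.card ((Option (Option (Fin j)) × ZMod c) ⊕ Fin m) = r + c := by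
    simp only [Fintype.card_sum, Fintype.card_prod, Fintype.card_fin, Fintype.card_option,
      ZMod.card]
    rw [hm]
    ring
  have := fills_of_design (r := r) (by rw [hcard, ZMod.card]) D
  simp only [Fintype.card_option, Fintype.card_fin] at this
  exact (fills_iff_of_card hcard).mp this

theorem not_fills_self {n k r : ℕ} (hc : r + 1 ≤ n) (hn : k * (n - r) ≤ n)
    (hk : 1 ≤ k) (h : k * r < (n - r) ^ (k - 1)) : ¬ SecantFills (Fin n) k r k := by
  have hcard : Fintype.card ((Fin k × Fin (n - r)) ⊕ Fin (n - k * (n - r))) = n := by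
    simp only [Fintype.card_sum, Fintype.card_prod, Fintype.card_fin]
    omega
  have := not_fills_eq (ι := Fin k) (γ := Fin (n - r)) (B := Fin (n - k * (n - r))) (r := r)
    (by rw [hcard]; simp; omega) (by
      simp only [Fintype.card_fin]
      obtain ⟨j, rfl⟩ : ∃ j, k = j + 1 := ⟨k - 1, by omega⟩
      rw [Nat.add_sub_cancel] at h
      rw [pow_succ]
      have : 0 < n - r := by omega
      nlinarith)
  rw [Fintype.card_fin] at this
  exact fun h0 => this ((fills_iff_of_card hcard).mpr h0)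

theorem not_fills_lt {n k r s : ℕ} (hk : 3 ≤ k) (hc : r + 2 ≤ n) (hn : 2 * (k - 1) ≤ n)
    (hs : s < k) : ¬ SecantFills (Fin n) k r s := by
  intro h0
  obtain ⟨K, rfl⟩ : ∃ K, k = K + 1 := ⟨k - 1, by omega⟩
  rw [Nat.add_sub_cancel] at hn
  obtain ⟨y, rfl⟩ : ∃ y, n = y + 2 * K := ⟨n - 2 * K, by omega⟩
  have h1 : SecantFills (Fin (y + 2 * K)) (K + 1) (y + 2 * K - 2) K :=
    secantFills_mono (by simp) (by omega) (secantFills_mono_r (by simp) (by omega) h0)
  have hcard : Fintype.card ((Fin K × Fin 2) ⊕ Fin y) = y + 2 * K := by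
    simp only [Fintype.card_sum, Fintype.card_prod, Fintype.card_fin]
    omega
  have := not_fills_pred (ι := Fin K) (γ := Fin 2) (B := Fin y) (r := y + 2 * K - 2)
    ⟨0, by omega⟩ (x₀ := 0) (x₁ := 1) (by decide) (by rw [hcard]; simp; omega) (by
      simp only [Fintype.card_fin]
      exact ineq_low (by omega))
  rw [Fintype.card_fin] at this
  exact this ((fills_iff_of_card hcard).mpr h1)

theorem isLeast_large {n k r : ℕ} (hk : 3 ≤ k) (hc : r + 2 ≤ n) (hn : (k + 1) * (n - r) ≤ n) :
    IsLeast {s | SecantFills (Fin n) k r s} (if (n - r) ^ (k - 1) ≤ k * r then k else k + 1) := by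
  have h2 : (k + 1) * 2 ≤ (k + 1) * (n - r) := by gcongr; omega
  split_ifs with h
  · refine ⟨fills_self hk hc hn h, fun s hs => ?_⟩
    by_contra hlt
    exact not_fills_lt hk hc (by omega) (by omega) hs
  · refine ⟨fills_succ (by omega) hn, fun s hs => ?_⟩
    by_contra hlt
    refine not_fills_self (by omega) (le_trans (by gcongr; omega) hn) (by omega) (by omega)
      (secantFills_mono (by simp; omega) (by omega) hs)

end Pool.Agent.P.MP_c64be1_ag
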