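import Pool.Agent.P.MP_c64be1_ag.Basic

/-! The dimension count: too few parameters give a proper subvariety. -/

namespace Pool.Agent.P.MP_c64be1_ag

open MvPolynomial

variable {ι : Type} (γ B : Type)

/-- The variables outside block `i`. -/
def off (i : ι) : Set ((ι × γ) ⊕ B) := {v | ∀ x, v ≠ Sum.inl (i, x)}

variable {γ B}

@[simp] lemma inr_mem_off (i : ι) (b : B) : (Sum.inr b : (ι × γ) ⊕ B) ∈ off γ B i := by
  intro x h
  cases h

@[simp] lemma inl_mem_off (i j : ι) (y : γ) :
    (Sum.inl (j, y) : (ι × γ) ⊕ B) ∈ off γ B i ↔ j ≠ i := by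
  constructor
  · rintro h rfl
    exact h y rfl
  · intro h x hx
    apply h
    simp only [Sum.inl.injEq, Prod.mk.injEq] at hx
    exact hx.1

variable [Fintype ι] [DecidableEq ι] [Fintype γ] [DecidableEq γ] [Fintype B] [DecidableEq B]

instance decMemOff (i : ι) : DecidablePred (· ∈ off γ B i) :=
  fun v => inferInstanceAs (Decidable (∀ x, v ≠ Sum.inl (i, x)))

lemma card_off (i : ι) :
    Fintype.card (off γ B i) + Fintype.card γ = Fintype.card ((ι × γ) ⊕ B) := by
  have h1 : Fintype.card {v : (ι × γ) ⊕ B // ¬ v ∈ off γ B i} = Fintype.card γ := by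
    symm
    refine Fintype.card_of_bijective (f := fun x => ⟨Sum.inl (i, x), by simp⟩) ⟨?_, ?_⟩
    · intro x y h
      simpa using h
    · rintro ⟨v, hv⟩
      simp only [off, Set.mem_ofPred_eq, not_forall, not_not] at hv
      obtain ⟨x, rfl⟩ := hv
      exact ⟨x, rfl⟩
  have h2 := Fintype.card_subtype_compl (fun v : (ι × γ) ⊕ B => v ∈ off γ B i)
  have h3 := Fintype.card_subtype_le (fun v : (ι × γ) ⊕ B => v ∈ off γ B i)
  rw [h1] at h2
  change Fintype.card {v : (ι × γ) ⊕ B // v ∈ off γ B i} + _ = _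
  omega

/-- Matrices in normal form. -/
def chart {R : Type} [CommRing R] (φ : (Σ i : ι, γ × off γ B i) → R) :
    Matrix ((ι × γ) ⊕ B) ((ι × γ) ⊕ B) R := fun v u =>
  match u with
  | Sum.inl (i, y) => if h : v ∈ off γ B i then φ ⟨i, y, ⟨v, h⟩⟩
      else if v = Sum.inl (i, y) then 1 else 0
  | Sum.inr b => if v = Sum.inr b then 1 else 0

omit [Fintype ι] [Fintype B] in
lemma chart_map {R R' : Type} [CommRing R] [CommRing R'] (f : R →+* R')
    (φ : (Σ i : ι, γ × off γ B i) → R) : (chart φ).map f = chart (fun p => f (φ p)) := by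
  ext v u
  rcases u with ⟨i, y⟩ | b
  · simp only [chart, Matrix.map_apply]
    split_ifs <;> simp
  · simp only [chart, Matrix.map_apply]
    split_ifs <;> simp

lemma hom_aeval {D A : Type} [CommRing A] [Algebra ℂ A] (f : A →+* ℂ)
    (hf : ∀ x : ℂ, f (algebraMap ℂ A x) = x) (c : D → A) (P : MvPolynomial D ℂ) :
    f (aeval c P) = eval (fun μ => f (c μ)) P := by
  induction P using MvPolynomial.induction_on with
  | C r => simp [hf]
  | add p q hp hq => simp [hp, hq]
  | mul_X p w hp => rw [map_mul, map_mul, map_mul, hp, aeval_X, eval_X]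

lemma exists_relation {D T : Type} [Fintype D] [Fintype T] (h : Fintype.card T < Fintype.card D)
    (c : D → MvPolynomial T ℂ) : ∃ P : MvPolynomial D ℂ, P ≠ 0 ∧ aeval c P = 0 := by
  by_contra hn
  push Not at hn
  have hind : AlgebraicIndependent ℂ c := by
    rw [algebraicIndependent_iff]
    intro p hp
    by_contra h0
    exact hn p h0 hp
  have := hind.cardinalMk_le_trdeg
  rw [MvPolynomial.trdeg_of_isDomain] at this
  simp only [Cardinal.mk_fintype, Cardinal.lift_natCast, Nat.cast_le] at this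
  omega

lemma mem_antidiag_iff {σ : Type} [Fintype σ] [DecidableEq σ] {k : ℕ} {m : σ →₀ ℕ} :
    m ∈ Finset.finsuppAntidiag (Finset.univ : Finset σ) k ↔ m.degree = k := by
  simp [Finsupp.degree_eq_sum]

lemma exists_chart_relation {k r : ℕ} (hr : r + Fintype.card γ = Fintype.card ((ι × γ) ⊕ B))
    (Ms : Finset (((ι × γ) ⊕ B) →₀ ℕ)) (hdeg : ∀ m ∈ Ms, m.degree = k)
    (hcard : Fintype.card ι * (Fintype.card γ * r) < Ms.card) :
    ∃ P : MvPolynomial (Finset.finsuppAntidiag (Finset.univ : Finset ((ι × γ) ⊕ B)) k) ℂ,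
      P ≠ 0 ∧ ∀ (φ : (Σ i : ι, γ × off γ B i) → ℂ) (w : MvPolynomial ((ι × γ) ⊕ B) ℂ),
        w.IsHomogeneous k → (∀ m ∈ Ms, coeff m w = 0) →
        eval (fun μ => coeff μ.1 (act (chart φ).adjugate w)) P = 0 := by
  set D := Finset.finsuppAntidiag (Finset.univ : Finset ((ι × γ) ⊕ B)) k with hD
  have hsub : Ms ⊆ D := fun m hm => mem_antidiag_iff.mpr (hdeg m hm)
  let T := (Σ i : ι, γ × off γ B i) ⊕ (D \ Ms : Finset _)
  have hT : Fintype.card T < Fintype.card D := by
    have h1 : Fintype.card (Σ i : ι, γ × off γ B i) = Fintype.card ι * (Fintype.card γ * r) := by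
      rw [Fintype.card_sigma]
      have : ∀ i : ι, Fintype.card (γ × off γ B i) = Fintype.card γ * r := by
        intro i
        rw [Fintype.card_prod]
        have := card_off (γ := γ) (B := B) i
        congr 1
        omega
      simp [this]
    have h2 := Finset.card_sdiff_add_card_eq_card hsub
    simp only [T, Fintype.card_sum, h1, Fintype.card_coe]
    omega
  let w₀ : MvPolynomial ((ι × γ) ⊕ B) (MvPolynomial T ℂ) :=
    ∑ m : (D \ Ms : Finset _), monomial m.1 (X (Sum.inr m))
  let Γ₀ : Matrix ((ι × γ) ⊕ B) ((ι × γ) ⊕ B) (MvPolynomial T ℂ) := chart fun p => X (Sum.inl p)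
  obtain ⟨P, hP0, hP⟩ := exists_relation hT (fun μ : D => coeff μ.1 (act Γ₀.adjugate w₀))
  refine ⟨P, hP0, fun φ w hw hz => ?_⟩
  let θ : T → ℂ := Sum.elim φ fun m => coeff m.1 w
  have h1 : map (eval θ) w₀ = w := by
    simp only [w₀, map_sum, map_monomial, eval_X, θ, Sum.elim_inr]
    rw [Finset.sum_coe_sort (D \ Ms) (fun m => monomial m (coeff m w))]
    conv_rhs => rw [w.as_sum]
    symm
    refine Finset.sum_subset (fun m hm => ?_) (fun m _ hm => ?_)
    · have hm' := mem_support_iff.mp hm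
      refine Finset.mem_sdiff.mpr ⟨mem_antidiag_iff.mpr ?_, fun h => hm' (hz m h)⟩
      by_contra h
      exact hm' (hw.coeff_eq_zero h)
    · simp [notMem_support_iff.mp hm]
  have h2 : Γ₀.adjugate.map (eval θ) = (chart φ).adjugate := by
    have := RingHom.map_adjugate (eval θ) Γ₀
    simp only [RingHom.mapMatrix_apply] at this
    rw [this, chart_map]
    simp [θ]
  have h3 := congrArg (eval θ) hP
  rw [map_zero, hom_aeval _ (fun x => by simp)] at h3
  rw [← h3]
  congr 2
  funext μ
  rw [← coeff_map, map_act, h1, h2]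

section family

variable {R : Type} [CommRing R]

/-- Columns of the adjugates. -/
noncomputable def hmat (M : ι → Matrix ((ι × γ) ⊕ B) ((ι × γ) ⊕ B) R) :
    Matrix ((ι × γ) ⊕ B) ((ι × γ) ⊕ B) R := fun v u =>
  match u with
  | Sum.inl (i, y) => (M i).adjugate v (Sum.inl (i, y))
  | Sum.inr b => if v = Sum.inr b then 1 else 0

/-- Diagonal blocks. -/
noncomputable def bmat (M : ι → Matrix ((ι × γ) ⊕ B) ((ι × γ) ⊕ B) R) (i : ι) : Matrix γ γ R :=
  fun x y => (M i).adjugate (Sum.inl (i, x)) (Sum.inl (i, y))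

lemma hmat_map {R' : Type} [CommRing R'] (f : R →+* R')
    (M : ι → Matrix ((ι × γ) ⊕ B) ((ι × γ) ⊕ B) R) :
    (hmat M).map f = hmat (fun i => (M i).map f) := by
  ext v u
  rcases u with ⟨i, y⟩ | b
  · have := RingHom.map_adjugate f (M i)
    simp only [RingHom.mapMatrix_apply] at this
    simp only [hmat, Matrix.map_apply, ← this]
  · simp only [hmat, Matrix.map_apply]
    split_ifs <;> simp

lemma bmat_map {R' : Type} [CommRing R'] (f : R →+* R')
    (M : ι → Matrix ((ι × γ) ⊕ B) ((ι × γ) ⊕ B) R) (i : ι) :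
    (bmat M i).map f = bmat (fun i => (M i).map f) i := by
  ext x y
  have := RingHom.map_adjugate f (M i)
  simp only [RingHom.mapMatrix_apply] at this
  simp only [bmat, Matrix.map_apply, ← this]

lemma hmat_one : hmat (fun _ : ι => (1 : Matrix ((ι × γ) ⊕ B) ((ι × γ) ⊕ B) R)) = 1 := by
  ext v u
  rcases u with ⟨i, y⟩ | b
  · simp [hmat]
  · simp [hmat, Matrix.one_apply]

lemma bmat_one (i : ι) :
    bmat (fun _ : ι => (1 : Matrix ((ι × γ) ⊕ B) ((ι × γ) ⊕ B) R)) i = 1 := by
  ext x y
  simp [bmat, Matrix.one_apply]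

end family

lemma exists_chart (M : ι → Matrix ((ι × γ) ⊕ B) ((ι × γ) ⊕ B) ℂ) (hH : (hmat M).det ≠ 0)
    (hB : ∀ i, (bmat M i).det ≠ 0) :
    ∃ φ : (Σ i : ι, γ × off γ B i) → ℂ, (chart φ).det ≠ 0 ∧
      ∀ i, ∀ v ∈ off γ B i, ∀ u, u ∉ off γ B i → (M i * chart φ) v u = 0 := by
  let G : ((ι × γ) ⊕ B) → ι → γ → ℂ := fun v i y =>
    ∑ x, (M i).adjugate v (Sum.inl (i, x)) * (bmat M i)⁻¹ x y
  have hG : ∀ v i y, chart (fun p : (Σ i : ι, γ × off γ B i) => G p.2.2.1 p.1 p.2.1) v
      (Sum.inl (i, y)) = G v i y := by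
    intro v i y
    simp only [chart]
    split_ifs with h1 h2
    · rfl
    · subst h2
      have := Matrix.mul_nonsing_inv _ (Ne.isUnit (hB i))
      have h := congrFun (congrFun this y) y
      simp only [Matrix.mul_apply, Matrix.one_apply_eq] at h
      exact h.symm
    · simp only [off, Set.mem_ofPred_eq, not_forall, not_not] at h1
      obtain ⟨x, rfl⟩ := h1
      have := Matrix.mul_nonsing_inv _ (Ne.isUnit (hB i))
      have h := congrFun (congrFun this x) y
      have hxy : x ≠ y := fun h => h2 (by rw [h])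
      simp only [Matrix.mul_apply, Matrix.one_apply_ne hxy] at h
      exact h.symm
  refine ⟨fun p => G p.2.2.1 p.1 p.2.1, ?_, ?_⟩
  · let Bd : Matrix ((ι × γ) ⊕ B) ((ι × γ) ⊕ B) ℂ := fun u t =>
      match u, t with
      | Sum.inl (i, x), Sum.inl (j, y) => if i = j then bmat M j x y else 0
      | Sum.inr b, Sum.inr b' => if b = b' then 1 else 0
      | _, _ => 0
    have hmul : chart (fun p : (Σ i : ι, γ × off γ B i) => G p.2.2.1 p.1 p.2.1) * Bd = hmat M := by
      ext v t
      rw [Matrix.mul_apply, Fintype.sum_sum_type, Fintype.sum_prod_type]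
      rcases t with ⟨j, y⟩ | b
      · simp only [hG, Bd, mul_zero, Finset.sum_const_zero, add_zero, hmat]
        rw [Finset.sum_eq_single j]
        · simp only [if_true, G, Finset.sum_mul]
          rw [Finset.sum_comm]
          have := Matrix.nonsing_inv_mul _ (Ne.isUnit (hB j))
          have h : ∀ x, ∑ z, (bmat M j)⁻¹ x z * bmat M j z y = if x = y then 1 else 0 := by
            intro x
            have h := congrFun (congrFun this x) y
            simpa only [Matrix.mul_apply, Matrix.one_apply] using h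
          simp only [mul_assoc, ← Finset.mul_sum, h]
          simp
        · intro i _ hi
          simp [hi]
        · simp
      · simp [Bd, hmat, chart]
    intro h0
    apply hH
    rw [← hmul, Matrix.det_mul, h0, zero_mul]
  · intro i v hv u hu
    simp only [off, Set.mem_ofPred_eq, not_forall, not_not] at hu
    obtain ⟨y, rfl⟩ := hu
    simp only [Matrix.mul_apply, hG, G, Finset.mul_sum]
    rw [Finset.sum_comm]
    refine Finset.sum_eq_zero fun x _ => ?_
    have := congrFun (congrFun (Matrix.mul_adjugate (M i)) v) (Sum.inl (i, x))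
    simp only [Matrix.mul_apply, Matrix.smul_apply, Matrix.one_apply_ne (hv x), smul_zero] at this
    simp only [← mul_assoc, ← Finset.sum_mul, this, zero_mul]

/-- The dimension count. -/
theorem not_secantFills {k r : ℕ} (hr : r + Fintype.card γ = Fintype.card ((ι × γ) ⊕ B))
    (Ms : Finset (((ι × γ) ⊕ B) →₀ ℕ)) (hdeg : ∀ m ∈ Ms, m.degree = k)
    (hhit : ∀ m ∈ Ms, ∀ i, ∃ x, m (Sum.inl (i, x)) ≠ 0)
    (hcard : Fintype.card ι * (Fintype.card γ * r) < Ms.card) :
    ¬ SecantFills ((ι × γ) ⊕ B) k r (Fintype.card ι) := by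
  intro hfill
  let D := Finset.finsuppAntidiag (Finset.univ : Finset ((ι × γ) ⊕ B)) k
  obtain ⟨P, hP0, hP⟩ := exists_chart_relation hr Ms hdeg hcard
  have hgood : ∀ (M : ι → Matrix ((ι × γ) ⊕ B) ((ι × γ) ⊕ B) ℂ)
      (w : ι → MvPolynomial ((ι × γ) ⊕ B) ℂ), (∀ i, w i ∈ spanX (off γ B i) ^ k) →
      (hmat M).det ≠ 0 → (∀ i, (bmat M i).det ≠ 0) →
      eval (fun μ : D => coeff μ.1 (∑ i, act (M i) (w i))) P = 0 := by
    intro M w hw hH hB
    obtain ⟨φ, hdet, hφ⟩ := exists_chart M hH hB
    have hF : (∑ i, act (M i) (w i)).IsHomogeneous k :=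
      IsHomogeneous.sum _ _ _ fun i _ =>
        act_isHomogeneous _ (isHomogeneous_of_mem_pow (spanX_le _) (hw i))
    have h1 := hP φ (C (((chart φ).det ^ k)⁻¹) * act (chart φ) (∑ i, act (M i) (w i)))
      ((act_isHomogeneous _ hF).C_mul _) (fun m hm => by
        rw [coeff_C_mul, map_sum, coeff_sum, Finset.sum_eq_zero, mul_zero]
        intro i _
        rw [act_act]
        by_contra h0
        obtain ⟨x, hx⟩ := hhit m hm i
        exact mem_of_coeff_ne_zero (act_mem_spanX_pow _ (hφ i) (hw i)) h0 hx x rfl)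
    rw [map_mul, act_act, Matrix.mul_adjugate, act_smul_one _ hF, algHom_C, algebraMap_eq,
      ← mul_assoc, ← C_mul, inv_mul_cancel₀ (pow_ne_zero _ hdet), C_1, one_mul] at h1
    exact h1
  have hall : ∀ F ∈ sums ((ι × γ) ⊕ B) k r (Fintype.card ι),
      eval (fun μ : D => coeff μ.1 F) P = 0 := by
    rintro F ⟨G, hG, rfl⟩
    let e : ι ≃ Fin (Fintype.card ι) := Fintype.equivFin ι
    have hex : ∀ i : ι, ∃ (M : Matrix ((ι × γ) ⊕ B) ((ι × γ) ⊕ B) ℂ)
        (w : MvPolynomial ((ι × γ) ⊕ B) ℂ), w ∈ spanX (off γ B i) ^ k ∧ G (e i) = act M w := by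
      intro i
      apply exists_act_of_mem_subCone
      have := card_off (γ := γ) (B := B) i
      have h2 : Fintype.card (off γ B i) = r := by omega
      rw [h2]
      exact hG _
    choose M w hw hMw using hex
    let Mp : ι → Matrix ((ι × γ) ⊕ B) ((ι × γ) ⊕ B) (Polynomial ℂ) := fun i =>
      (1 - Polynomial.X : Polynomial ℂ) • (M i).map Polynomial.C + (Polynomial.X : Polynomial ℂ) • 1
    let Me : ℂ → ι → Matrix ((ι × γ) ⊕ B) ((ι × γ) ⊕ B) ℂ := fun ε i =>
      (Mp i).map (Polynomial.evalRingHom ε)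
    have hM0 : Me 0 = M := by
      funext i
      ext v u
      simp [Me, Mp]
    have hM1 : Me 1 = fun _ => 1 := by
      funext i
      ext v u
      simp [Me, Mp, Matrix.one_apply, apply_ite]
    let Δ : Polynomial ℂ := (hmat Mp).det * ∏ i, (bmat Mp i).det
    have hΔ : ∀ ε, Δ.eval ε = (hmat (Me ε)).det * ∏ i, (bmat (Me ε) i).det := by
      intro ε
      change Polynomial.evalRingHom ε Δ = _
      simp only [Δ, map_mul, map_prod, RingHom.map_det, RingHom.mapMatrix_apply, hmat_map,
        bmat_map, Me]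
    let Q : Polynomial ℂ := aeval (fun μ : D =>
      coeff μ.1 (∑ i, act (Mp i) (map Polynomial.C (w i)))) P
    have hQ : ∀ ε, Q.eval ε = eval (fun μ : D => coeff μ.1 (∑ i, act (Me ε i) (w i))) P := by
      intro ε
      change Polynomial.evalRingHom ε Q = _
      simp only [Q]
      rw [hom_aeval _ (fun x => by simp)]
      congr 2
      funext μ
      rw [← coeff_map, map_sum]
      congr 1
      refine Finset.sum_congr rfl fun i _ => ?_
      rw [map_act, map_map]
      congr 1
      have : (Polynomial.evalRingHom ε).comp Polynomial.C = RingHom.id ℂ := by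
        ext x
        simp
      rw [this, map_id]
    have hΔ0 : Δ ≠ 0 := by
      intro h
      have := hΔ 1
      rw [h, hM1, hmat_one] at this
      simp [bmat_one] at this
    have hprod : Δ * Q = 0 := by
      refine Polynomial.funext fun ε => ?_
      rw [Polynomial.eval_mul, Polynomial.eval_zero]
      by_cases h : Δ.eval ε = 0
      · rw [h, zero_mul]
      · rw [hΔ, mul_eq_zero, not_or, Finset.prod_eq_zero_iff] at h
        rw [hQ, hgood _ w hw h.1 (fun i hi => h.2 ⟨i, Finset.mem_univ _, hi⟩), mul_zero]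
    have hQ0 : Q = 0 := (mul_eq_zero.mp hprod).resolve_left hΔ0
    have := hQ 0
    rw [hQ0, hM0, Polynomial.eval_zero] at this
    rw [← Equiv.sum_comp e G]
    simp only [hMw]
    exact this.symm
  apply hP0
  refine MvPolynomial.funext fun y => ?_
  have h1 := hfill (rename Subtype.val P) (fun F hF => by
    rw [eval_rename]
    exact hall F hF) (∑ μ : D, monomial μ.1 (y μ))
    (IsHomogeneous.sum _ _ _ fun μ _ => isHomogeneous_monomial _ (mem_antidiag_iff.mp μ.2))
  rw [eval_rename] at h1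
  rw [map_zero, ← h1]
  congr 2
  funext μ
  simp only [Function.comp_apply, coeff_sum, coeff_monomial]
  rw [Finset.sum_eq_single μ]
  · simp
  · intro ν _ hν
    rw [if_neg]
    exact fun h => hν (Subtype.ext h)
  · simp

end Pool.Agent.P.MP_c64be1_ag
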