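import Pool.Agent.P.MP_c64be1_ag.NotDense

/-! Reduction of the tangent space computation to a spanning statement for tensors. -/

namespace Pool.Agent.P.MP_c64be1_ag

open MvPolynomial Function

section tang

variable {σ ι : Type} [Fintype σ] [DecidableEq σ] [Fintype ι]

/-- The sum of the tangent spaces. -/
def tang (U : ι → Submodule ℂ (MvPolynomial σ ℂ)) (k : ℕ) (F : ι → MvPolynomial σ ℂ) :
    Submodule ℂ (MvPolynomial σ ℂ) where
  carrier := {τ | ∃ (w : ι → MvPolynomial σ ℂ) (a : ι → σ → MvPolynomial σ ℂ),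
    (∀ i, w i ∈ U i ^ k) ∧ (∀ i v, (a i v).IsHomogeneous 1) ∧
      τ = ∑ i, (w i + ∑ v, a i v * pderiv v (F i))}
  zero_mem' := ⟨0, 0, fun i => Submodule.zero_mem _, fun i v => isHomogeneous_zero _ _ _, by simp⟩
  add_mem' := by
    rintro _ _ ⟨w, a, hw, ha, rfl⟩ ⟨w', a', hw', ha', rfl⟩
    refine ⟨w + w', a + a', fun i => Submodule.add_mem _ (hw i) (hw' i),
      fun i v => (ha i v).add (ha' i v), ?_⟩
    simp only [Pi.add_apply, add_mul, Finset.sum_add_distrib]
    abel
  smul_mem' := by
    rintro c _ ⟨w, a, hw, ha, rfl⟩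
    refine ⟨c • w, c • a, fun i => Submodule.smul_mem _ _ (hw i),
      fun i v => (homogeneousSubmodule σ ℂ 1).smul_mem c (ha i v), ?_⟩
    simp only [Pi.smul_apply, smul_mul_assoc, Finset.smul_sum, smul_add]

variable [DecidableEq ι]

omit [DecidableEq σ] in
lemma mem_tang_of_mem_pow {U : ι → Submodule ℂ (MvPolynomial σ ℂ)} {k : ℕ}
    (F : ι → MvPolynomial σ ℂ) (i : ι) {p : MvPolynomial σ ℂ} (hp : p ∈ U i ^ k) :
    p ∈ tang U k F := by
  refine ⟨Pi.single i p, 0, fun j => ?_, fun i v => isHomogeneous_zero _ _ _, by simp⟩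
  by_cases h : j = i
  · subst h
    simpa using hp
  · simp [Pi.single_eq_of_ne h]

lemma X_mul_pderiv_mem_tang (U : ι → Submodule ℂ (MvPolynomial σ ℂ)) (k : ℕ)
    (F : ι → MvPolynomial σ ℂ) (i : ι) (u v : σ) : X u * pderiv v (F i) ∈ tang U k F := by
  refine ⟨0, fun j t => if j = i ∧ t = v then X u else 0, fun j => Submodule.zero_mem _,
    fun j t => ?_, ?_⟩
  · dsimp only
    split_ifs
    · exact isHomogeneous_X _ _
    · exact isHomogeneous_zero _ _ _
  · simp only [Pi.zero_apply, zero_add]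
    rw [Finset.sum_eq_single i, Finset.sum_eq_single v]
    · simp
    · intro t _ ht
      simp [ht]
    · simp
    · intro j _ hj
      simp [hj]
    · simp

end tang

variable {ι A B : Type} [Fintype ι] [DecidableEq ι] [Fintype A] [DecidableEq A] [AddCommGroup A]
  [Fintype B] [DecidableEq B]

variable (B) in
/-- The product of one variable from each block in `S`. -/
noncomputable def monOn (S : Finset ι) (a : ι → A) : MvPolynomial ((ι × A) ⊕ B) ℂ :=
  ∏ l ∈ S, X (Sum.inl (l, a l))

variable (B) in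
/-- The multilinear polynomial in the blocks other than `i` with coefficients `y`. -/
noncomputable def yPoly (i : ι) (y : (ι → A) → ℂ) : MvPolynomial ((ι × A) ⊕ B) ℂ :=
  ∑ a ∈ Finset.univ.filter (fun a : ι → A => a i = 0), y a • monOn B (Finset.univ.erase i) a

variable (B) in
/-- The multilinear polynomial with coefficients `φ`. -/
noncomputable def psi : ((ι → A) → ℂ) →ₗ[ℂ] MvPolynomial ((ι × A) ⊕ B) ℂ :=
  Fintype.linearCombination ℂ (fun a => monOn B Finset.univ a)

/-- The tensor `e_x ⊗ y`. -/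
def ev {R : Type} [Zero R] (i : ι) (x : A) (y : (ι → A) → R) : (ι → A) → R :=
  fun ω => if ω i = x then y (update ω i 0) else 0

omit [Fintype ι] [Fintype A] [DecidableEq A] [AddCommGroup A] [Fintype B] [DecidableEq B] in
lemma X_mul_monOn_erase {S : Finset ι} {j : ι} (hj : j ∈ S) (a : ι → A) (v : A) :
    X (Sum.inl (j, v)) * monOn B (S.erase j) a = monOn B S (update a j v) := by
  rw [monOn, monOn, ← Finset.mul_prod_erase S _ hj, update_self]
  congr 1
  refine Finset.prod_congr rfl fun l hl => ?_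
  rw [update_of_ne (Finset.ne_of_mem_erase hl)]

omit [Fintype B] [DecidableEq B] in
lemma X_mul_yPoly (i : ι) (x : A) (y : (ι → A) → ℂ) :
    X (Sum.inl (i, x)) * yPoly B i y = psi B (ev i x y) := by
  rw [psi, Fintype.linearCombination_apply, yPoly, Finset.mul_sum]
  simp only [ev, ite_smul, zero_smul]
  rw [← Finset.sum_filter]
  refine Finset.sum_nbij' (fun a => update a i x) (fun ω => update ω i 0) ?_ ?_ ?_ ?_ ?_
  · intro a _
    simp
  · intro a _
    simp
  · intro a ha
    simp only [Finset.mem_filter, Finset.mem_univ, true_and] at ha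
    simp [← ha]
  · intro a ha
    simp only [Finset.mem_filter, Finset.mem_univ, true_and] at ha
    simp [← ha]
  · intro a ha
    simp only [Finset.mem_filter, Finset.mem_univ, true_and] at ha
    rw [mul_smul_comm, X_mul_monOn_erase (Finset.mem_univ i)]
    simp [← ha]

omit [Fintype ι] [Fintype A] [DecidableEq A] [AddCommGroup A] [Fintype B] [DecidableEq B] in
lemma monOn_mem {S : Finset ι} {j : ι} (hj : j ∉ S) (a : ι → A) :
    monOn B S a ∈ spanX (off A B j) ^ S.card := by
  induction S using Finset.induction_on with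
  | empty => simp [monOn, Submodule.one_le.mp le_rfl]
  | insert l S hl ih =>
    rw [monOn, Finset.prod_insert hl, Finset.card_insert_of_notMem hl, pow_succ']
    refine Submodule.mul_mem_mul (X_mem_spanX ?_) (ih fun h => hj (Finset.mem_insert_of_mem h))
    rw [inl_mem_off]
    rintro rfl
    exact hj (Finset.mem_insert_self _ _)

omit [Fintype ι] [Fintype A] [AddCommGroup A] [Fintype B] [DecidableEq A] [DecidableEq B] in
lemma pderiv_monOn_eq_zero {S : Finset ι} (a : ι → A) {v : (ι × A) ⊕ B}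
    (h : ∀ l ∈ S, Sum.inl (l, a l) ≠ v) : pderiv v (monOn B S a) = 0 := by
  induction S using Finset.induction_on with
  | empty => simp [monOn]
  | insert l S hl ih =>
    rw [monOn, Finset.prod_insert hl, Derivation.leibniz]
    have h1 := ih fun t ht => h t (Finset.mem_insert_of_mem ht)
    rw [monOn] at h1
    rw [h1, pderiv_X_of_ne (h l (Finset.mem_insert_self _ _))]
    simp

omit [Fintype ι] [Fintype A] [AddCommGroup A] [Fintype B] [DecidableEq B] in
lemma pderiv_monOn {S : Finset ι} {j : ι} (hj : j ∈ S) (a : ι → A) (u : A) :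
    pderiv (Sum.inl (j, u)) (monOn B S a) = if a j = u then monOn B (S.erase j) a else 0 := by
  split_ifs with h
  · have h1 := X_mul_monOn_erase (B := B) hj a u
    rw [← h, update_eq_self] at h1
    rw [← h1, ← h, Derivation.leibniz, pderiv_monOn_eq_zero, pderiv_X_self]
    · simp
    · intro l hl h2
      simp only [Sum.inl.injEq, Prod.mk.injEq] at h2
      exact Finset.ne_of_mem_erase hl h2.1
  · apply pderiv_monOn_eq_zero
    intro l _ h2
    simp only [Sum.inl.injEq, Prod.mk.injEq] at h2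
    apply h
    rw [← h2.1, h2.2]

variable (B) in
/-- The form attached to direction `i`. -/
noncomputable def fPoly (i : ι) (yf : B → (ι → A) → ℂ) (s : ι → A → (ι → A) → ℂ) :
    MvPolynomial ((ι × A) ⊕ B) ℂ :=
  ∑ b, X (Sum.inr b) * yPoly B i (yf b) +
    ∑ j ∈ Finset.univ.erase i, ∑ v, X (Sum.inl (j, v)) * yPoly B i (s j v)

omit [Fintype B] [DecidableEq B] in
lemma yPoly_mem (i : ι) (y : (ι → A) → ℂ) :
    yPoly B i y ∈ spanX (off A B i) ^ (Finset.univ.erase i).card :=
  Submodule.sum_mem _ fun a _ => Submodule.smul_mem _ _ (monOn_mem (Finset.notMem_erase _ _) a)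

omit [DecidableEq B] in
lemma fPoly_mem (i : ι) (yf : B → (ι → A) → ℂ) (s : ι → A → (ι → A) → ℂ) :
    fPoly B i yf s ∈ spanX (off A B i) ^ Fintype.card ι := by
  rw [← Finset.card_univ, ← Finset.card_erase_add_one (Finset.mem_univ i), pow_succ']
  refine Submodule.add_mem _ (Submodule.sum_mem _ fun b _ => ?_)
    (Submodule.sum_mem _ fun j hj => Submodule.sum_mem _ fun v _ => ?_)
  · exact Submodule.mul_mem_mul (X_mem_spanX (inr_mem_off _ _)) (yPoly_mem _ _)
  · exact Submodule.mul_mem_mul (X_mem_spanX ((inl_mem_off _ _ _).mpr (Finset.ne_of_mem_erase hj)))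
      (yPoly_mem _ _)

omit [Fintype B] [DecidableEq B] in
lemma pderiv_inr_yPoly (i : ι) (y : (ι → A) → ℂ) (b : B) :
    pderiv (Sum.inr b) (yPoly B i y) = 0 := by
  rw [yPoly, map_sum]
  refine Finset.sum_eq_zero fun a _ => ?_
  rw [Derivation.map_smul, pderiv_monOn_eq_zero _ (fun l _ h => by cases h), smul_zero]

lemma pderiv_inr_fPoly (i : ι) (yf : B → (ι → A) → ℂ) (s : ι → A → (ι → A) → ℂ) (b : B) :
    pderiv (Sum.inr b) (fPoly B i yf s) = yPoly B i (yf b) := by
  simp only [fPoly, map_add, map_sum, Derivation.leibniz, pderiv_inr_yPoly, mul_zero, zero_add,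
    smul_eq_mul]
  rw [Finset.sum_eq_single b]
  · simp
  · intro b' _ hb
    rw [pderiv_X_of_ne (by simpa using hb), mul_zero]
  · simp

omit [Fintype B] [DecidableEq B] in
lemma pderiv_inl_yPoly {i j : ι} (hj : j ≠ i) (y : (ι → A) → ℂ) (u : A) :
    pderiv (Sum.inl (j, u)) (yPoly B i y) =
      ∑ a ∈ Finset.univ.filter (fun a : ι → A => a i = 0),
        y a • if a j = u then monOn B ((Finset.univ.erase i).erase j) a else 0 := by
  rw [yPoly, map_sum]
  refine Finset.sum_congr rfl fun a _ => ?_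
  rw [Derivation.map_smul, pderiv_monOn (Finset.mem_erase.mpr ⟨hj, Finset.mem_univ _⟩)]

omit [Fintype B] [DecidableEq B] in
lemma junk_mem {i j : ι} (hj : j ≠ i) (y : (ι → A) → ℂ) (u x : A) {t : (ι × A) ⊕ B}
    (ht : t ∈ off A B j) :
    X (Sum.inl (i, x)) * (X t * pderiv (Sum.inl (j, u)) (yPoly B i y)) ∈
      spanX (off A B j) ^ Fintype.card ι := by
  rw [← Finset.card_univ, ← Finset.card_erase_add_one (Finset.mem_univ i), pow_succ',
    ← Finset.card_erase_add_one (Finset.mem_erase.mpr ⟨hj, Finset.mem_univ j⟩), pow_succ']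
  refine Submodule.mul_mem_mul (X_mem_spanX ((inl_mem_off _ _ _).mpr hj.symm))
    (Submodule.mul_mem_mul (X_mem_spanX ht) ?_)
  rw [pderiv_inl_yPoly hj]
  refine Submodule.sum_mem _ fun a _ => Submodule.smul_mem _ _ ?_
  split_ifs
  · exact monOn_mem (Finset.notMem_erase _ _) a
  · exact Submodule.zero_mem _

omit [Fintype B] [DecidableEq B] in
lemma sum_X_mul_pderiv {i j : ι} (hj : j ≠ i) (s : A → (ι → A) → ℂ)
    (hs : ∀ u a, s (a j) (update a j u) = s u a) (u : A) :
    ∑ v, X (Sum.inl (j, v)) * pderiv (Sum.inl (j, u)) (yPoly B i (s v)) = yPoly B i (s u) := by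
  have hji : j ∈ Finset.univ.erase i := Finset.mem_erase.mpr ⟨hj, Finset.mem_univ j⟩
  simp only [pderiv_inl_yPoly hj, Finset.mul_sum, mul_smul_comm, mul_ite, mul_zero,
    X_mul_monOn_erase hji, smul_ite, smul_zero]
  rw [← Finset.sum_product', ← Finset.sum_filter, yPoly]
  refine Finset.sum_nbij' (fun p => update p.2 j p.1) (fun a => (a j, update a j u)) ?_ ?_ ?_ ?_ ?_
  · intro p hp
    simp only [Finset.mem_filter, Finset.mem_product, Finset.mem_univ, true_and] at hp ⊢
    rw [update_of_ne hj.symm, hp.1]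
  · intro a ha
    simp only [Finset.mem_filter, Finset.mem_product, Finset.mem_univ, true_and] at ha ⊢
    rw [update_of_ne hj.symm, ha, update_self]
    exact ⟨rfl, rfl⟩
  · intro p hp
    simp only [Finset.mem_filter, Finset.mem_product, Finset.mem_univ, true_and] at hp
    simp [← hp.2]
  · intro a _
    simp
  · intro p hp
    simp only [Finset.mem_filter, Finset.mem_product, Finset.mem_univ, true_and] at hp
    rw [← hs u (update p.2 j p.1)]
    simp [← hp.2]

lemma X_mul_yPoly_mem_tang (yf : ι → B → (ι → A) → ℂ) (s : ι → ι → A → (ι → A) → ℂ) {i j : ι}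
    (hj : j ≠ i) (hs : ∀ u a, s i j (a j) (update a j u) = s i j u a) (x u : A) :
    X (Sum.inl (i, x)) * yPoly B i (s i j u) ∈
      tang (fun l => spanX (off A B l)) (Fintype.card ι) (fun l => fPoly B l (yf l) (s l)) := by
  set T := tang (fun l => spanX (off A B l)) (Fintype.card ι) (fun l => fPoly B l (yf l) (s l))
  have hji : j ∈ Finset.univ.erase i := Finset.mem_erase.mpr ⟨hj, Finset.mem_univ j⟩
  have h1 : X (Sum.inl (i, x)) * pderiv (Sum.inl (j, u)) (fPoly B i (yf i) (s i)) ∈ T :=
    X_mul_pderiv_mem_tang _ _ (fun l => fPoly B l (yf l) (s l)) i _ _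
  have h2 : pderiv (Sum.inl (j, u)) (fPoly B i (yf i) (s i)) =
      (∑ b, X (Sum.inr b) * pderiv (Sum.inl (j, u)) (yPoly B i (yf i b)) +
        ∑ l ∈ (Finset.univ.erase i).erase j, ∑ v,
          X (Sum.inl (l, v)) * pderiv (Sum.inl (j, u)) (yPoly B i (s i l v)))
        + (2 : ℂ) • yPoly B i (s i j u) := by
    simp only [fPoly, map_add, map_sum, Derivation.leibniz, smul_eq_mul, Finset.sum_add_distrib]
    rw [← Finset.add_sum_erase _ _ hji, sum_X_mul_pderiv hj _ hs]
    have e1 : ∑ b : B, yPoly B i (yf i b) * pderiv (Sum.inl (j, u))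
        (X (Sum.inr b) : MvPolynomial ((ι × A) ⊕ B) ℂ) = 0 :=
      Finset.sum_eq_zero fun b _ => by rw [pderiv_X_of_ne (by simp), mul_zero]
    have e2 : ∑ l ∈ Finset.univ.erase i, ∑ v, yPoly B i (s i l v) * pderiv (Sum.inl (j, u))
        (X (Sum.inl (l, v)) : MvPolynomial ((ι × A) ⊕ B) ℂ) = yPoly B i (s i j u) := by
      rw [Finset.sum_eq_single j, Finset.sum_eq_single u]
      · simp
      · intro v _ hv
        rw [pderiv_X_of_ne (by simpa using hv), mul_zero]
      · simp
      · intro l _ hl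
        exact Finset.sum_eq_zero fun v _ => by
          rw [pderiv_X_of_ne (by simp [hl]), mul_zero]
      · intro h
        exact absurd hji h
    rw [e1, e2, two_smul]
    abel
  have h3 : X (Sum.inl (i, x)) * (∑ b, X (Sum.inr b) * pderiv (Sum.inl (j, u)) (yPoly B i (yf i b)) +
        ∑ l ∈ (Finset.univ.erase i).erase j, ∑ v,
          X (Sum.inl (l, v)) * pderiv (Sum.inl (j, u)) (yPoly B i (s i l v))) ∈ T := by
    refine mem_tang_of_mem_pow _ j ?_
    simp only [mul_add, Finset.mul_sum]
    refine Submodule.add_mem _ (Submodule.sum_mem _ fun b _ => junk_mem hj _ _ _ (inr_mem_off _ _))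
      (Submodule.sum_mem _ fun l hl => Submodule.sum_mem _ fun v _ => junk_mem hj _ _ _ ?_)
    exact (inl_mem_off _ _ _).mpr (Finset.ne_of_mem_erase hl)
  rw [h2, mul_add] at h1
  have h4 := T.smul_mem (2⁻¹ : ℂ) ((T.add_mem_iff_right h3).mp h1)
  rw [mul_smul_comm, smul_smul] at h4
  simpa using h4

omit [Fintype A] [DecidableEq A] [AddCommGroup A] [Fintype B] [DecidableEq B] [DecidableEq ι] in
lemma monOn_univ_eq (a : ι → A) : monOn B Finset.univ a =
    monomial (∑ l, Finsupp.single (Sum.inl (l, a l) : (ι × A) ⊕ B) 1) 1 := by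
  rw [monOn, monomial_sum_index]
  simp [X]

omit [Fintype A] [AddCommGroup A] [Fintype B] in
lemma eq_of_hits {m : ((ι × A) ⊕ B) →₀ ℕ} (hm : m.degree = Fintype.card ι) (a : ι → A)
    (ha : ∀ l, m (Sum.inl (l, a l)) ≠ 0) :
    m = ∑ l, Finsupp.single (Sum.inl (l, a l) : (ι × A) ⊕ B) 1 := by
  have hle : ∑ l, Finsupp.single (Sum.inl (l, a l) : (ι × A) ⊕ B) 1 ≤ m := by
    intro v
    simp only [Finsupp.coe_finsetSum, Finset.sum_apply, Finsupp.single_apply]
    by_cases h : ∃ l, Sum.inl (l, a l) = v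
    · obtain ⟨l, rfl⟩ := h
      rw [Finset.sum_eq_single l]
      · have := ha l
        simp only [if_true]
        omega
      · intro t _ ht
        simp [ht]
      · simp
    · push Not at h
      simp [h]
  obtain ⟨d, hd⟩ := exists_add_of_le hle
  have h1 := congrArg Finsupp.degree hd
  rw [hm, map_add, map_sum] at h1
  simp only [Finsupp.degree_single, Finset.sum_const, Finset.card_univ, smul_eq_mul, mul_one,
    left_eq_add, Finsupp.degree_eq_zero_iff] at h1
  rw [hd, h1, add_zero]

theorem fills_of_span {r : ℕ} (hr : r + Fintype.card A = Fintype.card ((ι × A) ⊕ B))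
    (yf : ι → B → (ι → A) → ℂ) (s : ι → ι → A → (ι → A) → ℂ)
    (hs : ∀ i j, j ≠ i → ∀ u a, s i j (a j) (update a j u) = s i j u a)
    (hspan : ∀ S : Submodule ℂ ((ι → A) → ℂ), (∀ i x b, ev i x (yf i b) ∈ S) →
      (∀ i j, j ≠ i → ∀ x u, ev i x (s i j u) ∈ S) → S = ⊤) :
    SecantFills ((ι × A) ⊕ B) (Fintype.card ι) r (Fintype.card ι) := by
  refine secantFills_of_tangent rfl (by omega) (fun l => spanX (off A B l)) (fun l => spanX_le _)
    (fun l => (finrank_spanX_le _).trans (by have := card_off (γ := A) (B := B) l; omega))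
    (fun l => fPoly B l (yf l) (s l)) (fun l => fPoly_mem _ _ _) fun τ hτ => ?_
  set T := tang (fun l => spanX (off A B l)) (Fintype.card ι) (fun l => fPoly B l (yf l) (s l))
  change τ ∈ T
  have htop : T.comap (psi B) = ⊤ := by
    refine hspan _ (fun i x b => ?_) (fun i j hj x u => ?_)
    · rw [Submodule.mem_comap, ← X_mul_yPoly, ← pderiv_inr_fPoly i (yf i) (s i)]
      exact X_mul_pderiv_mem_tang _ _ (fun l => fPoly B l (yf l) (s l)) i _ _
    · rw [Submodule.mem_comap, ← X_mul_yPoly]
      exact X_mul_yPoly_mem_tang yf s hj (hs i j hj) x u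
  rw [τ.as_sum]
  refine Submodule.sum_mem _ fun m hm => ?_
  have hdeg : m.degree = Fintype.card ι := by
    by_contra h
    exact (mem_support_iff.mp hm) (hτ.coeff_eq_zero h)
  by_cases h : ∀ l, ∃ x, m (Sum.inl (l, x)) ≠ 0
  · choose a ha using h
    have h1 : psi B (Pi.single a (coeff m τ)) ∈ T := by
      rw [← Submodule.mem_comap, htop]
      trivial
    rw [psi, Fintype.linearCombination_apply_single, monOn_univ_eq, ← eq_of_hits hdeg a ha,
      smul_monomial, smul_eq_mul, mul_one] at h1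
    exact h1
  · push Not at h
    obtain ⟨l, hl⟩ := h
    refine mem_tang_of_mem_pow _ l ?_
    rw [← hdeg]
    refine monomial_mem_spanX_pow _ _ fun v hv x hx => hv ?_
    rw [hx, hl]

end Pool.Agent.P.MP_c64be1_ag
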